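import Pool.Agent.MP_b30265_an.Defs

open MeasureTheory Real

namespace Pool.Agent.MP_b30265_an

/-- Q1 has a positive answer for the frequencies `lam`: absolute continuity of one Riesz product
with respect to another does not depend on the common phases. -/
def PhaseInvariant (lam : ℕ → ℕ) : Prop :=
  ∀ (a b : ℕ → ℂ) (φ : ℕ → ℝ) (μa μb νa νb : Measure (AddCircle (2 * π))),
    (∀ n, ‖a n‖ < 1) → (∀ n, ‖b n‖ < 1) →
    IsRieszProduct lam a 0 μa → IsRieszProduct lam b 0 μb →
    IsRieszProduct lam a φ νa → IsRieszProduct lam b φ νb → (μa ≪ μb ↔ νa ≪ νb)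

/-- for the frequencies `lam`, absolute continuity of Riesz products with common phases is decided
by the convergence of one explicit series in the coefficients. -/
def ExplicitCriterion (lam : ℕ → ℕ) : Prop :=
  ∀ (a b : ℕ → ℂ) (φ : ℕ → ℝ) (μ ν : Measure (AddCircle (2 * π))),
    (∀ n, ‖a n‖ < 1) → (∀ n, ‖b n‖ < 1) →
    IsRieszProduct lam a φ μ → IsRieszProduct lam b φ ν →
    (μ ≪ ν ↔ Summable fun n =>
      ‖a n - b n‖ ^ 2 + (‖a n‖ ^ 2 - ‖b n‖ ^ 2) ^ 2 / √(2 - ‖a n + b n‖))

end Pool.Agent.MP_b30265_an
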