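import Pool.Agent.Mg.Fb30265.G7fb764

open MeasureTheory Filter Topology Real

noncomputable section

namespace Pool.Agent.MP_b30265_an.Th

/-- one Riesz factor -/
def pf (α : ℂ) (y : Tc) : ℝ := 1 + (α * fourier 1 y).re

/-- the factors of the Riesz product with coefficients `a` and phases `φ` -/
def rf (a : ℕ → ℂ) (φ : ℕ → ℝ) (n : ℕ) (y : Tc) : ℝ := pf (a n) (y + (φ n : Tc))

/-- two consecutive real factors -/
def bA (α γ : ℝ) (ρ : ℕ) (y : Tc) : ℝ := (1 + α * cs 1 y) * (1 + γ * cs ρ y)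

def Sep (Λ D : ℕ → ℕ) : Prop :=
  (∀ k, 0 < Λ k) ∧ ∀ k, ∑ j ∈ Finset.range k, D j * Λ j < Λ k

def Lim (Λ : ℕ → ℕ) (p : ℕ → Tc → ℝ) (μ : Measure Tc) : Prop :=
  IsProbabilityMeasure μ ∧ ∀ f : C(Tc, ℝ),
    Tendsto (fun N => ∫ x, f x * ∏ k ∈ Finset.range N, p k ((Λ k : ℤ) • x) ∂hm) atTop
      (𝓝 (∫ x, f x ∂μ))

def Blk (F : ℕ → ℕ) (p : ℕ → Tc → ℝ) : Prop :=
  ∀ k, TP 1 (F k) (p k) ∧ (∀ y, 0 < p k y) ∧ ∫ y, p k y ∂hm = 1

def Up (D : ℕ) (p q : Tc → ℝ) (e : ℝ) : Prop :=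
  ∃ T : Tc → ℝ, TP 1 D T ∧ (∀ y, (p y - q y) ^ 2 ≤ 2 * (p y + q y) * T y) ∧ ∫ y, T y ∂hm ≤ e

def Low (E : ℕ) (p q : Tc → ℝ) (e : ℝ) : Prop :=
  ∃ x : Tc → ℝ, TP 1 E x ∧
    e ≤ ∫ y, x y * (p y - q y) ∂hm - ∫ y, x y ^ 2 * (p y + q y) ∂hm

def Had (lam : ℕ → ℕ) : Prop := 0 < lam 0 ∧ ∀ n, 3 * lam n ≤ lam (n + 1)

def SAc : Prop :=
  ∀ (Λ D : ℕ → ℕ) (p q : ℕ → Tc → ℝ) (μ ν : Measure Tc) (e : ℕ → ℝ) (K : ℕ),
    Sep Λ D → Blk D p → Blk D q → Lim Λ p μ → Lim Λ q ν → Summable e →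
    (∀ k, K ≤ k → Up (D k) (p k) (q k) (e k)) → μ ≪ ν

def SSing : Prop :=
  ∀ (Λ D E F : ℕ → ℕ) (p q : ℕ → Tc → ℝ) (μ ν : Measure Tc) (e : ℕ → ℝ) (K : ℕ),
    Sep Λ D → Blk F p → Blk F q → Lim Λ p μ → Lim Λ q ν → (∀ k, F k ≤ D k) →
    (∀ k, 0 ≤ e k) → ¬ Summable e →
    (∀ k, K ≤ k → 2 * E k + F k ≤ D k ∧ Low (E k) (p k) (q k) (e k)) → μ ⟂ₘ ν

def SFej : Prop :=
  ∀ D : ℕ, ∃ F : Tc → ℝ, TP 1 D F ∧ ∫ y, F y ∂hm = D ∧
    ∀ y, 0 ≤ F y ∧ F y ≤ (D : ℝ) ^ 2 ∧ (1 - cs 1 y) * F y = 1 - cs D y ∧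
      ((D : ℝ) ^ 2 * (1 - cs 1 y) ≤ 1 / 2 → (D : ℝ) ^ 2 / 4 ≤ F y)

def SCheb : Prop :=
  ∀ (d : ℕ) (t : Tc → ℝ), 0 < d → TP 1 1 t → (∀ y, 4 / (d : ℝ) ^ 2 ≤ t y) → (∀ y, t y ≤ 2) →
    ∃ R : Tc → ℝ, TP 1 d R ∧ ∀ y, 1 ≤ 2 * (t y * R y) ∧ t y * R y ≤ 1

def SBlockB : Prop :=
  ∀ (α β : ℂ) (d : ℕ), ‖α‖ < 1 → ‖β‖ < 1 → 6 ≤ d →
    ∃ s : ℝ, 0 ≤ s ∧ Up (d + 2) (pf α) (pf β) (s + 96 / (d : ℝ) ^ 3) ∧
      Low (d + 1) (pf α) (pf β) (s / 32)

def SBlockA : Prop :=
  ∀ (ρ M : ℕ) (δ : ℝ), 2 ≤ ρ → 8 ≤ M → δ = 1 / ((M : ℝ) * ρ) ^ 2 →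
    Up ρ (bA (-(1 - δ / 2)) (-(1 - δ)) ρ) (bA (-(1 - δ)) (-(1 - δ)) ρ)
        (1 / ((ρ : ℝ) ^ 3 * (M : ℝ) ^ 4)) ∧
      Low (M * ρ) (bA (-(1 - δ / 2)) (1 - δ) ρ) (bA (-(1 - δ)) (1 - δ) ρ)
        (1 / (768 * ((ρ : ℝ) ^ 3 * (M : ℝ) ^ 3)))

def SSel : Prop :=
  ∀ w : ℕ → ℝ, (∀ n, 0 ≤ w n) → (∀ n, w n ≤ 1) → ¬ Summable w →
    ∃ n M : ℕ → ℕ, (∀ k, 8 ≤ M k) ∧ (∀ k, n k + M k + 1 ≤ n (k + 1)) ∧
      Summable (fun k => w (n k) / (M k : ℝ) ^ 4) ∧ ¬ Summable (fun k => w (n k) / (M k : ℝ) ^ 3)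

lemma fact {Λ D : ℕ → ℕ} (h : Sep Λ D) {g : ℕ → Tc → ℝ} (hg : ∀ k, TP 1 (D k) (g k)) (N : ℕ) :
    TP 1 (∑ j ∈ Finset.range N, D j * Λ j)
        (fun x => ∏ k ∈ Finset.range N, g k ((Λ k : ℤ) • x)) ∧
      ∫ x, ∏ k ∈ Finset.range N, g k ((Λ k : ℤ) • x) ∂hm
        = ∏ k ∈ Finset.range N, ∫ x, g k x ∂hm := by
  induction N with
  | zero =>
    refine ⟨?_, by simp⟩
    simpa using TP.const 1 0 1
  | succ K ih =>
    obtain ⟨hT, hI⟩ := ih
    have h1 := (hg K).scale (Λ K)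
    refine ⟨?_, ?_⟩
    · simp only [Finset.prod_range_succ, Finset.sum_range_succ]
      exact hT.mul (h1.mono (one_dvd _) le_rfl)
    · simp only [Finset.prod_range_succ]
      rw [hT.indep h1 (h.2 K), hI, integral_scale (h.1 K).ne' (hg K).continuous]

lemma fourier_add_right (n : ℤ) (x c : Tc) : fourier n (x + c) = fourier n c * fourier n x := by
  simp only [fourier_apply, smul_add, AddCircle.toCircle_add, Circle.coe_mul]
  ring

lemma TP_shift {L D : ℕ} {f : Tc → ℝ} (hf : TP L D f) (c : Tc) : TP L D (fun y => f (y + c)) := by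
  unfold TP at *
  refine TPc.induction (p := fun g => TPc L D (fun x => g (x + c))) ?_ ?_ ?_ ?_ hf
  · intro n h1 h2
    have := (TPc.basis h1 h2).smul (fourier n c)
    simpa only [fourier_add_right] using this
  · exact TPc.zero _ _
  · intro f g hf hg; exact hf.add hg
  · intro c f hf; exact hf.smul c

lemma integral_shift (f : Tc → ℝ) (c : Tc) : ∫ y, f (y + c) ∂hm = ∫ y, f y ∂hm :=
  integral_add_right_eq_self f c

lemma Up.shift {D : ℕ} {p q : Tc → ℝ} {e : ℝ} (h : Up D p q e) (c : Tc) :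
    Up D (fun y => p (y + c)) (fun y => q (y + c)) e := by
  obtain ⟨T, h1, h2, h3⟩ := h
  exact ⟨fun y => T (y + c), TP_shift h1 c, fun y => h2 _, by rwa [integral_shift]⟩

lemma Low.shift {E : ℕ} {p q : Tc → ℝ} {e : ℝ} (h : Low E p q e) (c : Tc) :
    Low E (fun y => p (y + c)) (fun y => q (y + c)) e := by
  obtain ⟨x, h1, h2⟩ := h
  refine ⟨fun y => x (y + c), TP_shift h1 c, ?_⟩
  rwa [integral_shift (fun y => x y * (p y - q y)), integral_shift (fun y => x y ^ 2 * (p y + q y))]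

lemma Up.mono {D D' : ℕ} {p q : Tc → ℝ} {e e' : ℝ} (h : Up D p q e) (hD : D ≤ D') (he : e ≤ e') :
    Up D' p q e' := by
  obtain ⟨T, h1, h2, h3⟩ := h
  exact ⟨T, h1.mono dvd_rfl hD, h2, h3.trans he⟩

lemma Low.mono {E E' : ℕ} {p q : Tc → ℝ} {e e' : ℝ} (h : Low E p q e) (hE : E ≤ E') (he : e' ≤ e) :
    Low E' p q e' := by
  obtain ⟨x, h1, h2⟩ := h
  exact ⟨x, h1.mono dvd_rfl hE, he.trans h2⟩

lemma TP_pf (α : ℂ) : TP 1 1 (pf α) :=
  (TP.const 1 1 1).add (TPc.re ((TPc.basis (L := 1) (D := 1) (n := 1) (by simp) (by simp)).smul α))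

lemma abs_re_le (α : ℂ) (y : Tc) : |(α * fourier 1 y).re| ≤ ‖α‖ := by
  refine (Complex.abs_re_le_norm _).trans ?_
  rw [norm_mul, fourier_apply, Circle.norm_coe, mul_one]

lemma pf_pos {α : ℂ} (h : ‖α‖ < 1) (y : Tc) : 0 < pf α y := by
  have := abs_le.1 (abs_re_le α y)
  unfold pf
  linarith [this.1]

lemma pf_le {α : ℂ} (h : ‖α‖ < 1) (y : Tc) : pf α y ≤ 2 := by
  have := abs_le.1 (abs_re_le α y)
  unfold pf
  linarith [this.2]

lemma integral_pf (α : ℂ) : ∫ y, pf α y ∂hm = 1 := by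
  have hc : Continuous fun y : Tc => α * fourier 1 y := continuous_const.mul (fourier 1).continuous
  have h2 := integral_re (𝕜 := ℂ) (μ := hm) (f := fun y : Tc => α * fourier 1 y)
    (integrable_of_continuous _ hc)
  rw [integral_const_mul, integral_fourier] at h2
  have hc2 : Continuous fun y : Tc => (α * fourier 1 y).re := Complex.continuous_re.comp hc
  unfold pf
  rw [integral_add (integrable_const _) (integrable_of_continuous _ hc2)]
  simp only [RCLike.re_to_complex] at h2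
  rw [h2]
  simp

lemma blk_rf {a : ℕ → ℂ} (ha : ∀ n, ‖a n‖ < 1) (φ : ℕ → ℝ) : Blk (fun _ => 1) (rf a φ) :=
  fun n => ⟨TP_shift (TP_pf _) _, fun _ => pf_pos (ha n) _,
    (integral_shift (pf (a n)) _).trans (integral_pf _)⟩

lemma Blk.mono {F F' : ℕ → ℕ} {p : ℕ → Tc → ℝ} (h : Blk F p) (hF : ∀ k, F k ≤ F' k) : Blk F' p :=
  fun k => ⟨(h k).1.mono dvd_rfl (hF k), (h k).2⟩

lemma blk_bA {α γ : ℕ → ℝ} {ρ : ℕ → ℕ} (hα : ∀ k, |α k| < 1) (hγ : ∀ k, |γ k| < 1)
    (hρ : ∀ k, 2 ≤ ρ k) : Blk (fun k => 1 + ρ k) (fun k => bA (α k) (γ k) (ρ k)) := by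
  intro k
  refine ⟨(TP_factor _ 1).mul ((TP_factor _ _).mono (one_dvd _) le_rfl), fun y => ?_, ?_⟩
  · exact mul_pos (one_add_mul_pos (hα k) (abs_cs_le _ _)) (one_add_mul_pos (hγ k) (abs_cs_le _ _))
  · have h2 := hρ k
    have := (TP_factor (α k) 1).indep (TP_factor (γ k) (ρ k)) (by omega)
    rw [integral_factor _ (by norm_num), integral_factor _ (by omega), mul_one] at this
    exact this

lemma Had.pos {lam : ℕ → ℕ} (h : Had lam) (n : ℕ) : 0 < lam n := by
  induction n with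
  | zero => exact h.1
  | succ n ih => have := h.2 n; omega

lemma Had.pow_le {lam : ℕ → ℕ} (h : Had lam) (n m : ℕ) : 3 ^ m * lam n ≤ lam (n + m) := by
  induction m with
  | zero => simp
  | succ m ih =>
    have := h.2 (n + m)
    rw [pow_succ, ← add_assoc]
    nlinarith

lemma Had.sep {lam D : ℕ → ℕ} (h : Had lam) (hD : ∀ n, 2 * (D n * lam n) ≤ lam (n + 1)) :
    Sep lam D := by
  refine ⟨h.pos, fun k => ?_⟩
  induction k with
  | zero => simpa using h.1
  | succ k ih =>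
    rw [Finset.sum_range_succ]
    have h1 := h.2 k
    have h2 := hD k
    omega

lemma ac_ThAc {μ ν : Measure Tc} [IsFiniteMeasure μ] [IsFiniteMeasure ν]
    (h : ∀ ε : ℝ, 0 < ε → ∃ C : ℝ, ∀ f : C(Tc, ℝ), (∀ x, 0 ≤ f x) → (∀ x, f x ≤ 1) →
      ∫ x, f x ∂μ ≤ ε + C * ∫ x, f x ∂ν) : μ ≪ ν := by
  have hclosed : ∀ K : Set Tc, IsClosed K → ν K = 0 → μ K = 0 := by
    intro K hK hνK
    have hpos : ∀ n : ℕ, (0 : ℝ) < 1 / ((n : ℝ) + 1) := fun n => by positivity
    have t1 := tendsto_integral_thickenedIndicator_of_isClosed μ hK hpos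
      tendsto_one_div_add_atTop_nhds_zero_nat
    have t2 := tendsto_integral_thickenedIndicator_of_isClosed ν hK hpos
      tendsto_one_div_add_atTop_nhds_zero_nat
    have hν0 : ν.real K = 0 := by simp [Measure.real, hνK]
    rw [hν0] at t2
    have hle : ∀ ε : ℝ, 0 < ε → μ.real K ≤ 0 + ε := by
      intro ε hε
      obtain ⟨C, hC⟩ := h ε hε
      have t3 := (t2.const_mul C).const_add ε
      simp only [mul_zero, add_zero] at t3
      rw [zero_add]
      refine le_of_tendsto_of_tendsto' t1 t3 fun n => ?_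
      let f : C(Tc, ℝ) := ⟨fun x => (thickenedIndicator (hpos n) K x : ℝ),
        NNReal.continuous_coe.comp (thickenedIndicator (hpos n) K).continuous⟩
      refine hC f (fun x => NNReal.coe_nonneg _) (fun x => ?_)
      change ((thickenedIndicator (hpos n) K x : NNReal) : ℝ) ≤ 1
      exact_mod_cast thickenedIndicator_le_one (hpos n) K x
    have h1 : μ.real K = 0 := le_antisymm (le_of_forall_pos_le_add hle) measureReal_nonneg
    rwa [measureReal_eq_zero_iff] at h1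
  refine Measure.AbsolutelyContinuous.mk fun A hA hνA => ?_
  by_contra hne
  obtain ⟨K, hKA, hK, hpos⟩ := hA.exists_lt_isClosed_of_ne_top (measure_ne_top μ A)
    (pos_iff_ne_zero.2 hne)
  rw [hclosed K hK (measure_mono_null hKA hνA)] at hpos
  exact lt_irrefl _ hpos

lemma pt_ThAc {P C S η : ℝ} (hC : 0 < C) (hη : 0 < η) (h : P ^ 2 ≤ S * C) :
    |P - C| ≤ η * C + (S - 2 * P + C) / (4 * η) := by
  have h1 : (P - C) ^ 2 ≤ (S - 2 * P + C) * C := by nlinarith
  rw [← sub_le_iff_le_add', le_div_iff₀ (by positivity)]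
  rw [← sq_abs] at h1
  refine le_of_mul_le_mul_right ?_ hC
  nlinarith [sq_nonneg (|P - C| - 2 * η * C)]

lemma half_ThAc {Λ D : ℕ → ℕ} (hS : Sep Λ D) {a c s : ℕ → Tc → ℝ} {d : ℕ → ℝ}
    (ha : Blk D a) (hc : Blk D c) (hs : ∀ k, TP 1 (D k) (s k))
    (h1 : ∀ k y, a k y ^ 2 ≤ s k y * c k y) (h2 : ∀ k, ∫ y, s k y ∂hm ≤ 1 + d k) (N : ℕ)
    {η : ℝ} (hη : 0 < η) :
    ∫ x, |∏ k ∈ Finset.range N, a k ((Λ k : ℤ) • x) -
      ∏ k ∈ Finset.range N, c k ((Λ k : ℤ) • x)| ∂hm ≤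
        η + (Real.exp (∑ k ∈ Finset.range N, d k) - 1) / (4 * η) := by
  obtain ⟨a1, a2⟩ := fact hS (fun k => (ha k).1) N
  obtain ⟨c1, c2⟩ := fact hS (fun k => (hc k).1) N
  obtain ⟨s1, s2⟩ := fact hS hs N
  simp only [(ha _).2.2, (hc _).2.2, Finset.prod_const_one] at a2 c2
  have s3 : ∏ k ∈ Finset.range N, ∫ y, s k y ∂hm ≤ Real.exp (∑ k ∈ Finset.range N, d k) := by
    rw [Real.exp_sum]
    refine Finset.prod_le_prod (fun k _ => integral_nonneg fun y => ?_) fun k _ => ?_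
    · exact nonneg_of_mul_nonneg_left ((sq_nonneg _).trans (h1 k y)) ((hc k).2.1 y)
    · linarith [h2 k, Real.add_one_le_exp (d k)]
  have ia := integrable_of_continuous hm a1.continuous
  have ic := integrable_of_continuous hm c1.continuous
  have is := integrable_of_continuous hm s1.continuous
  have i1 := (is.sub (ia.const_mul 2)).add ic
  refine (integral_mono (ia.sub ic).abs ((ic.const_mul η).add (i1.div_const (4 * η)))
    fun x => pt_ThAc (Finset.prod_pos fun k _ => (hc k).2.1 _) hη ?_).trans ?_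
  · rw [← Finset.prod_pow, ← Finset.prod_mul_distrib]
    exact Finset.prod_le_prod (fun k _ => sq_nonneg _) fun k _ => h1 k _
  · rw [integral_add' (ic.const_mul η) (i1.div_const (4 * η)), integral_const_mul, integral_div,
      integral_add' (is.sub (ia.const_mul 2)) ic, integral_sub' is (ia.const_mul 2),
      integral_const_mul, a2, c2, s2, mul_one]
    gcongr
    linarith

lemma ite_ThAc {D : ℕ → ℕ} {p q : ℕ → Tc → ℝ} (hp : Blk D p) (hq : Blk D q) (N : ℕ) :
    Blk D fun k => if k < N then p k else q k := fun k => by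
  by_cases h : k < N
  · simpa only [if_pos h] using hp k
  · simpa only [if_neg h] using hq k

lemma ratio_ThAc {p q : Tc → ℝ} (hp : Continuous p) (hq : Continuous q) (h : ∀ y, 0 < q y) :
    ∃ M : ℝ, ∀ y, p y ≤ M * q y := by
  obtain ⟨z, -, hz⟩ := isCompact_univ.exists_isMaxOn ⟨0, Set.mem_univ _⟩
    (hp.div hq fun y => (h y).ne').continuousOn
  exact ⟨_, fun y => (div_le_iff₀ (h y)).1 (hz (Set.mem_univ y))⟩

theorem sAc : SAc := by
  intro Λ D p q μ ν e K hS hp hq hμ hν he hU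
  have := hμ.1
  have := hν.1
  refine ac_ThAc fun ε hε => ?_
  have hη : 0 < ε / 4 := by positivity
  obtain ⟨F, hF⟩ := he.vanishing (e := Real.exp ⁻¹' Set.Iio (1 + ε ^ 2 / 4))
    (Real.continuous_exp.continuousAt.preimage_mem_nhds (Iio_mem_nhds (by
      rw [Real.exp_zero]; linarith [pow_pos hε 2])))
  obtain ⟨N, hKN, hFN⟩ : ∃ N, K ≤ N ∧ ∀ k ∈ F, k < N :=
    ⟨K + F.sup id + 1, by omega, fun k hk => by
      have : k ≤ F.sup id := Finset.le_sup (f := id) hk
      omega⟩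
  have hT : ∀ k, ∃ T : Tc → ℝ, ¬ k < N → TP 1 (D k) T ∧
      (∀ y, (p k y - q k y) ^ 2 ≤ 2 * (p k y + q k y) * T y) ∧ ∫ y, T y ∂hm ≤ e k := fun k => by
    by_cases h : k < N
    · exact ⟨0, fun h' => absurd h h'⟩
    · exact (hU k (by omega)).imp fun _ h _ => h
  choose T hT using hT
  choose M hM using fun k => ratio_ThAc (hp k).1.continuous (hq k).1.continuous (hq k).2.1
  have hc : Blk D fun k y => 1 / 2 * (p k y + q k y) := fun k => by
    refine ⟨((hp k).1.add (hq k).1).smul _, fun y => ?_, ?_⟩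
    · have := (hp k).2.1 y
      have := (hq k).2.1 y
      positivity
    · rw [integral_const_mul, integral_add (integrable_of_continuous hm (hp k).1.continuous)
        (integrable_of_continuous hm (hq k).1.continuous), (hp k).2.2, (hq k).2.2]
      norm_num
  have key : ∀ a : ℕ → Tc → ℝ, Blk D a →
      (∀ k y, (2 * a k y - (p k y + q k y)) ^ 2 = (p k y - q k y) ^ 2) → ∀ n : ℕ,
      ∫ x, |∏ k ∈ Finset.range n, (if k < N then p k else a k) ((Λ k : ℤ) • x) -
        ∏ k ∈ Finset.range n, (if k < N then p k else fun y => 1 / 2 * (p k y + q k y))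
          ((Λ k : ℤ) • x)| ∂hm ≤ ε / 2 := by
    intro a ha h1 n
    refine (half_ThAc hS (ite_ThAc hp ha N) (ite_ThAc hp hc N)
      (s := fun k => if k < N then p k else fun y => 2 * a k y - 1 / 2 * (p k y + q k y) + T k y)
      (d := fun k => if k < N then 0 else e k) (fun k => ?_) (fun k y => ?_) (fun k => ?_) n
      hη).trans ?_
    · by_cases h : k < N
      · simpa only [if_pos h] using (hp k).1
      · simpa only [if_neg h] using (((ha k).1.smul 2).sub (hc k).1).add (hT k h).1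
    · by_cases h : k < N
      · simp only [if_pos h, sq, le_refl]
      · simp only [if_neg h]
        nlinarith [h1 k y, (hT k h).2.1 y]
    · by_cases h : k < N
      · simp only [if_pos h, (hp k).2.2, add_zero, le_refl]
      · simp only [if_neg h]
        have i1 := (integrable_of_continuous hm (ha k).1.continuous).const_mul 2
        have i2 : Integrable (fun y => 1 / 2 * (p k y + q k y)) hm :=
          integrable_of_continuous hm (hc k).1.continuous
        have i3 : Integrable (fun y => 2 * a k y - 1 / 2 * (p k y + q k y)) hm := i1.sub i2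
        rw [integral_add i3 (integrable_of_continuous hm (hT k h).1.continuous),
          integral_sub i1 i2, integral_const_mul, (ha k).2.2, (hc k).2.2]
        linarith [(hT k h).2.2]
    · have h2 := hF ((Finset.range n).filter fun k => ¬ k < N)
        (Finset.disjoint_left.2 fun k h1 h2 => (Finset.mem_filter.1 h1).2 (hFN k h2))
      rw [Finset.sum_ite, Finset.sum_const_zero, zero_add, ← le_sub_iff_add_le',
        div_le_iff₀ (by positivity)]
      simp only [Set.mem_preimage, Set.mem_Iio] at h2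
      nlinarith
  refine ⟨∏ k ∈ Finset.range N, M k, fun f f0 f1 => ?_⟩
  refine le_of_tendsto_of_tendsto (hμ.2 f) (((hν.2 f).const_mul _).const_add ε) ?_
  filter_upwards [eventually_ge_atTop N] with n hn
  have k1 := key p hp (fun k y => by ring) n
  have k2 := key q hq (fun k y => by ring) n
  simp only [ite_self] at k1
  have c1 := (fact hS (fun k => (hp k).1) n).1.continuous
  have c2 := (fact hS (fun k => (hq k).1) n).1.continuous
  have c3 := (fact hS (fun k => (ite_ThAc hp hq N k).1) n).1.continuous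
  have c4 := (fact hS (fun k => (ite_ThAc hp hc N k).1) n).1.continuous
  have i1 := integrable_of_continuous hm (c1.fun_sub c4).abs
  have i2 := integrable_of_continuous hm (c3.fun_sub c4).abs
  have i3 := (integrable_of_continuous hm (f.continuous.fun_mul c2)).const_mul
    (∏ k ∈ Finset.range N, M k)
  refine (integral_mono (integrable_of_continuous hm (f.continuous.fun_mul c1))
    ((i1.add i2).add i3) fun x => ?_).trans ?_
  · have h3 : ∏ k ∈ Finset.range n, (if k < N then p k else q k) ((Λ k : ℤ) • x) ≤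
        (∏ k ∈ Finset.range N, M k) * ∏ k ∈ Finset.range n, q k ((Λ k : ℤ) • x) := by
      have : ∏ k ∈ Finset.range N, M k = ∏ k ∈ Finset.range n, if k < N then M k else 1 := by
        rw [← Finset.prod_filter]
        congr 1
        ext k
        simp only [Finset.mem_filter, Finset.mem_range]
        omega
      rw [this, ← Finset.prod_mul_distrib]
      refine Finset.prod_le_prod (fun k _ => ((ite_ThAc hp hq N k).2.1 _).le) fun k _ => ?_
      by_cases h : k < N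
      · simpa only [if_pos h] using hM k _
      · simp only [if_neg h, one_mul, le_refl]
    simp only [Pi.add_apply]
    generalize ∏ k ∈ Finset.range n, (if k < N then p k else q k) ((Λ k : ℤ) • x) = Q at *
    generalize ∏ k ∈ Finset.range n, (if k < N then p k else fun y => 1 / 2 * (p k y + q k y))
      ((Λ k : ℤ) • x) = C
    generalize ∏ k ∈ Finset.range n, p k ((Λ k : ℤ) • x) = P
    have b1 := mul_le_mul_of_nonneg_left h3 (f0 x)
    have b2 : P - Q ≤ |P - C| + |Q - C| := by linarith [le_abs_self (P - C), neg_abs_le (Q - C)]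
    have b3 := mul_le_mul_of_nonneg_left b2 (f0 x)
    have b4 := mul_le_mul_of_nonneg_right (f1 x)
      (add_nonneg (abs_nonneg (P - C)) (abs_nonneg (Q - C)))
    linarith
  · rw [integral_add' (i1.add i2) i3, integral_add' i1 i2, integral_const_mul]
    linarith

lemma test_ThSing {Λ D : ℕ → ℕ} {p : ℕ → Tc → ℝ} {μ : Measure Tc} (hS : Sep Λ D)
    (hp : Blk D p) (hμ : Lim Λ p μ) (h : ℕ → Tc → ℝ) (hc : ∀ k, Continuous (h k))
    (hh : ∀ k, TP 1 (D k) (fun y => h k y * p k y)) (K : ℕ) :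
    ∫ x, ∏ k ∈ Finset.range K, h k ((Λ k : ℤ) • x) ∂μ
      = ∏ k ∈ Finset.range K, ∫ x, h k x * p k x ∂hm := by
  have hc' : Continuous (fun x : Tc => ∏ k ∈ Finset.range K, h k ((Λ k : ℤ) • x)) :=
    continuous_finsetProd _ fun k _ => (hc k).comp (continuous_const_smul _)
  let f : C(Tc, ℝ) := ⟨_, hc'⟩
  have t1 := hμ.2 f
  refine tendsto_nhds_unique t1 (tendsto_const_nhds.congr' ?_)
  filter_upwards [eventually_ge_atTop K] with M hM
  obtain ⟨J, rfl⟩ := Nat.exists_eq_add_of_le hM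
  let g : ℕ → Tc → ℝ := fun k x => (if k < K then h k x else 1) * p k x
  have hg : ∀ k, TP 1 (D k) (g k) := by
    intro k
    by_cases hk : k < K
    · simpa [g, hk] using hh k
    · simpa [g, hk] using (hp k).1
  have h2 := (fact hS hg (K + J)).2
  have h3 : ∏ k ∈ Finset.range (K + J), ∫ x, g k x ∂hm
      = ∏ k ∈ Finset.range K, ∫ x, h k x * p k x ∂hm := by
    rw [Finset.prod_range_add, Finset.prod_eq_one (s := Finset.range J), mul_one]
    · refine Finset.prod_congr rfl fun k hk => ?_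
      rw [Finset.mem_range] at hk
      simp [g, hk]
    · intro i _
      simp [g, (hp _).2.2]
  rw [← h3, ← h2]
  congr 1
  ext x
  simp only [g, Finset.prod_mul_distrib, f, ContinuousMap.coe_mk]
  congr 1
  rw [Finset.prod_range_add, Finset.prod_eq_one (s := Finset.range J), mul_one]
  · refine Finset.prod_congr rfl fun k hk => ?_
    rw [Finset.mem_range] at hk
    simp [hk]
  · intro i _
    simp

lemma one_ThSing {x p : Tc → ℝ} (hx : Continuous x) (hp : Continuous p) (h0 : ∀ y, 0 < p y)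
    (h1 : ∫ y, p y ∂hm = 1) :
    0 < ∫ y, (1 + x y + x y ^ 2) * p y ∂hm ∧
      ∫ y, (1 + x y + x y ^ 2) * p y ∂hm
        ≤ Real.exp (∫ y, x y * p y ∂hm + ∫ y, x y ^ 2 * p y ∂hm) := by
  have i0 := integrable_of_continuous hm hp
  have i1 := integrable_of_continuous hm (hx.fun_mul hp)
  have i2 := integrable_of_continuous hm ((hx.fun_pow 2).fun_mul hp)
  have e : (fun y => (1 + x y + x y ^ 2) * p y)
      = fun y => p y + x y * p y + x y ^ 2 * p y := by
    ext y; ring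
  constructor
  · have h2 : ∫ y, 1 / 2 * p y ∂hm ≤ ∫ y, (1 + x y + x y ^ 2) * p y ∂hm := by
      refine integral_mono (i0.const_mul _) ?_ fun y => ?_
      · rw [e]; exact (i0.add i1).add i2
      · exact mul_le_mul_of_nonneg_right (by nlinarith [sq_nonneg (x y + 1 / 2)]) (h0 y).le
    rw [integral_const_mul, h1] at h2
    linarith
  · have i3 : Integrable (fun y => p y + x y * p y) hm := i0.add i1
    rw [e, integral_add i3 i2, integral_add i0 i1, h1]
    linarith [Real.add_one_le_exp (∫ y, x y * p y ∂hm + ∫ y, x y ^ 2 * p y ∂hm)]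

lemma two_ThSing {x p q : Tc → ℝ} {e : ℝ} (hx : Continuous x) (hp : Continuous p)
    (hq : Continuous q) (p0 : ∀ y, 0 < p y) (q0 : ∀ y, 0 < q y)
    (p1 : ∫ y, p y ∂hm = 1) (q1 : ∫ y, q y ∂hm = 1)
    (he : e ≤ ∫ y, x y * (p y - q y) ∂hm - ∫ y, x y ^ 2 * (p y + q y) ∂hm) :
    (∫ y, (1 + x y + x y ^ 2) * q y ∂hm) * ∫ y, (1 + -x y + (-x y) ^ 2) * p y ∂hm
      ≤ Real.exp (-e) := by
  obtain ⟨a0, a1⟩ := one_ThSing hx hq q0 q1
  obtain ⟨b0, b1⟩ := one_ThSing hx.fun_neg hp p0 p1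
  refine (mul_le_mul a1 b1 b0.le (Real.exp_pos _).le).trans ?_
  rw [← Real.exp_add, Real.exp_le_exp]
  simp only [mul_sub, mul_add] at he
  rw [integral_sub (integrable_of_continuous hm (hx.fun_mul hp))
      (integrable_of_continuous hm (hx.fun_mul hq)),
    integral_add (integrable_of_continuous hm ((hx.fun_pow 2).fun_mul hp))
      (integrable_of_continuous hm ((hx.fun_pow 2).fun_mul hq))] at he
  simp only [neg_mul, neg_sq, integral_neg]
  linarith

theorem sSing : SSing := by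
  intro Λ D E F p q μ ν e K hS hp hq hμ hν hF he0 hns hL
  have := hμ.1
  have := hν.1
  have hx : ∀ k, ∃ x : Tc → ℝ, Continuous x ∧
      (∀ r : Tc → ℝ, TP 1 (F k) r → TP 1 (D k) (fun y => (1 + x y + x y ^ 2) * r y) ∧
        TP 1 (D k) (fun y => (1 + -x y + (-x y) ^ 2) * r y)) ∧
      (if K ≤ k then e k else 0)
        ≤ ∫ y, x y * (p k y - q k y) ∂hm - ∫ y, x y ^ 2 * (p k y + q k y) ∂hm := by
    intro k
    by_cases hk : K ≤ k
    · obtain ⟨hd, x, h1, h2⟩ := hL k hk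
      have key : ∀ z : Tc → ℝ, TP 1 (E k) z → ∀ r : Tc → ℝ, TP 1 (F k) r →
          TP 1 (D k) (fun y => (1 + z y + z y ^ 2) * r y) := fun z hz r hr =>
        ((((TP.const 1 (2 * E k) 1).add (hz.mono dvd_rfl (by omega))).add (hz.pow 2)).mul hr).mono
          dvd_rfl hd
      have h3 : TP 1 (E k) (fun y => -x y) := by simpa using h1.smul (-1)
      exact ⟨x, h1.continuous, fun r hr => ⟨key x h1 r hr, key _ h3 r hr⟩, by simpa [hk] using h2⟩
    · refine ⟨fun _ => 0, continuous_const, fun r hr => ?_, by simp [hk]⟩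
      have h1 := hr.mono dvd_rfl (hF k)
      constructor <;> simpa using h1
  choose x hxc hxT hxe using hx
  let e' : ℕ → ℝ := fun k => if K ≤ k then e k else 0
  have he'0 : ∀ k, 0 ≤ e' k := fun k => by
    simp only [e']
    split_ifs
    · exact he0 k
    · exact le_rfl
  have hns' : ¬ Summable e' := fun h => by
    apply hns
    rw [← summable_nat_add_iff K] at h ⊢
    simpa [e'] using h
  have t0 := (not_summable_iff_tendsto_nat_atTop_of_nonneg he'0).1 hns'
  have t1 := Real.tendsto_exp_neg_atTop_nhds_zero.comp t0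
  refine singular_of_test fun η hη => ?_
  obtain ⟨J, hJ⟩ := (t1.eventually (ge_mem_nhds (pow_pos hη 2))).exists
  let Z : ℕ → Tc → ℝ := fun k y => 1 + x k y + x k y ^ 2
  let W : ℕ → Tc → ℝ := fun k y => 1 + -x k y + (-x k y) ^ 2
  have hZc : ∀ k, Continuous (Z k) := fun k => by have := hxc k; fun_prop
  have hWc : ∀ k, Continuous (W k) := fun k => by have := hxc k; fun_prop
  have hZ0 : ∀ k y, 0 < Z k y := fun k y => by
    simp only [Z]; nlinarith [sq_nonneg (x k y + 1 / 2)]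
  have hZW : ∀ k y, 1 ≤ Z k y * W k y := fun k y => by
    simp only [Z, W]; nlinarith [sq_nonneg (x k y), sq_nonneg (x k y ^ 2)]
  have ha := test_ThSing hS (hq.mono hF) hν Z hZc (fun k => (hxT k _ (hq k).1).1) J
  have hb := test_ThSing hS (hp.mono hF) hμ W hWc (fun k => (hxT k _ (hp k).1).2) J
  set ZZ : Tc → ℝ := fun y => ∏ k ∈ Finset.range J, Z k ((Λ k : ℤ) • y) with hZZ
  set WW : Tc → ℝ := fun y => ∏ k ∈ Finset.range J, W k ((Λ k : ℤ) • y) with hWW
  have cZ : Continuous ZZ :=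
    continuous_finsetProd _ fun k _ => (hZc k).comp (continuous_const_smul _)
  have cW : Continuous WW :=
    continuous_finsetProd _ fun k _ => (hWc k).comp (continuous_const_smul _)
  have pZ : ∀ y, 0 < ZZ y := fun y => Finset.prod_pos fun k _ => hZ0 _ _
  have pZW : ∀ y, 1 ≤ ZZ y * WW y := fun y => by
    simp only [hZZ, hWW]
    rw [← Finset.prod_mul_distrib]
    exact Finset.prod_induction _ (fun r : ℝ => 1 ≤ r) (fun a b ha hb => one_le_mul_of_one_le_of_one_le ha hb)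
      le_rfl fun k _ => hZW _ _
  have a0 : 0 < ∫ y, ZZ y ∂ν := by
    rw [ha]
    exact Finset.prod_pos fun k _ =>
      (one_ThSing (hxc k) (hq k).1.continuous (hq k).2.1 (hq k).2.2).1
  have hab : (∫ y, ZZ y ∂ν) * ∫ y, WW y ∂μ ≤ η ^ 2 := by
    refine le_trans ?_ hJ
    rw [ha, hb, ← Finset.prod_mul_distrib]
    simp only [Function.comp]
    rw [← Finset.sum_neg_distrib, Real.exp_sum]
    refine Finset.prod_le_prod (fun k _ => mul_nonneg ?_ ?_) fun k _ => ?_
    · exact (one_ThSing (hxc k) (hq k).1.continuous (hq k).2.1 (hq k).2.2).1.le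
    · exact (one_ThSing (hxc k).fun_neg (hp k).1.continuous (hp k).2.1 (hp k).2.2).1.le
    · exact two_ThSing (hxc k) (hp k).1.continuous (hq k).1.continuous (hp k).2.1 (hq k).2.1
        (hp k).2.2 (hq k).2.2 (hxe k)
  set a := ∫ y, ZZ y ∂ν with hadef
  set b := ∫ y, WW y ∂μ with hbdef
  set t := a / η with ht
  have t0 : 0 < t := div_pos a0 hη
  have hd : ∀ y, 0 < ZZ y + t := fun y => add_pos (pZ y) t0
  have cf : Continuous fun y => ZZ y / (ZZ y + t) :=
    cZ.div₀ (cZ.add continuous_const) fun y => (hd y).ne'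
  refine ⟨⟨_, cf⟩, fun y => ?_, fun y => ?_, ?_, ?_⟩
  · exact (div_pos (pZ y) (hd y)).le
  · exact (div_le_one (hd y)).2 (by linarith)
  · have h1 : ∫ y, (1 - t * WW y) ∂μ ≤ ∫ y, ZZ y / (ZZ y + t) ∂μ := by
      refine integral_mono (integrable_of_continuous μ (by fun_prop))
        (integrable_of_continuous μ cf) fun y => ?_
      have h2 := pZW y
      have h3 := pZ y
      have h4 : 0 < WW y := by
        by_contra hc
        nlinarith [mul_nonneg h3.le (neg_nonneg.2 (not_lt.1 hc))]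
      change 1 - t * WW y ≤ ZZ y / (ZZ y + t)
      rw [le_div_iff₀ (hd y)]
      nlinarith [mul_le_mul_of_nonneg_left h2 t0.le, mul_pos (mul_pos t0 t0) h4]
    rw [integral_sub (integrable_const _) (integrable_of_continuous μ (by fun_prop)),
      integral_const_mul] at h1
    simp only [integral_const, probReal_univ, smul_eq_mul, mul_one] at h1
    have h5 : t * b ≤ η := by
      rw [ht, div_mul_eq_mul_div, div_le_iff₀ hη]
      linarith
    simp only [ContinuousMap.coe_mk]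
    linarith
  · have h1 : ∫ y, ZZ y / (ZZ y + t) ∂ν ≤ ∫ y, ZZ y / t ∂ν := by
      refine integral_mono (integrable_of_continuous ν cf)
        (integrable_of_continuous ν (cZ.div_const t)) fun y => ?_
      exact div_le_div_of_nonneg_left (pZ y).le t0 (by linarith [pZ y])
    rw [integral_div] at h1
    have h5 : a / t = η := by
      rw [ht]; field_simp
    simp only [ContinuousMap.coe_mk]
    linarith

theorem res_ThSel {w : ℕ → ℝ} (h0 : ∀ n, 0 ≤ w n) (hw : ¬ Summable w) (m : ℕ) :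
    ∃ r : ℕ, ¬ Summable fun i => w (i * (m + 1) + r) := by
  by_contra h
  push Not at h
  refine hw (((Equiv.prodComm (Fin (m + 1)) ℕ).trans
    (Nat.divModEquiv (m + 1)).symm).summable_iff.1 ?_)
  exact (summable_prod_of_nonneg fun p => h0 _).2 ⟨fun r => h r, Summable.of_finite⟩

theorem sSel : SSel := by
  intro w h0 h1 hw
  choose r hr using res_ThSel h0 hw
  obtain ⟨μ, hμ⟩ : ∃ μ : ℝ → ℕ, ∀ t, μ t = (⌈t⌉₊ + 3) ^ 2 := ⟨_, fun _ => rfl⟩
  obtain ⟨ν, hν⟩ : ∃ ν : ℕ × ℝ → ℕ, ∀ s, ν s = s.1 * (μ s.2 + 1) + r (μ s.2) := ⟨_, fun _ => rfl⟩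
  obtain ⟨s, s0, hs⟩ : ∃ s : ℕ → ℕ × ℝ, (s 0).2 = 0 ∧ ∀ k, s (k + 1) =
      (if μ ((s k).2 + w (ν (s k)) / (μ (s k).2 : ℝ) ^ 3) = μ (s k).2 then (s k).1 + 1
        else ν (s k) + μ (s k).2 + 1, (s k).2 + w (ν (s k)) / (μ (s k).2 : ℝ) ^ 3) :=
    ⟨fun k => Nat.rec (0, 0) (fun _ p => (if μ (p.2 + w (ν p) / (μ p.2 : ℝ) ^ 3) = μ p.2
      then p.1 + 1 else ν p + μ p.2 + 1, p.2 + w (ν p) / (μ p.2 : ℝ) ^ 3)) k, rfl, fun _ => rfl⟩
  have m8 : ∀ t, 8 ≤ μ t := fun t => by rw [hμ]; nlinarith [Nat.zero_le ⌈t⌉₊]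
  have m1 : ∀ t, (1 : ℝ) ≤ μ t := fun t => by exact_mod_cast (m8 t).trans' (by norm_num)
  have ht : ∀ k, (s (k + 1)).2 = (s k).2 + w (ν (s k)) / (μ (s k).2 : ℝ) ^ 3 := fun k => by
    rw [hs]
  have hi : ∀ k, (s (k + 1)).1 = if μ (s (k + 1)).2 = μ (s k).2 then (s k).1 + 1
      else ν (s k) + μ (s k).2 + 1 := fun k => by rw [ht, hs]
  have d0 : ∀ k, 0 ≤ w (ν (s k)) / (μ (s k).2 : ℝ) ^ 3 := fun k =>
    div_nonneg (h0 _) (by positivity)
  have d1 : ∀ k, w (ν (s k)) / (μ (s k).2 : ℝ) ^ 3 ≤ 1 := fun k =>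
    div_le_one_of_le₀ ((h1 _).trans (one_le_pow₀ (m1 _))) (by positivity)
  have hsum : ∀ k, (s k).2 = ∑ j ∈ Finset.range k, w (ν (s j)) / (μ (s j).2 : ℝ) ^ 3 := fun k => by
    induction k with
    | zero => exact s0
    | succ k ih => rw [Finset.sum_range_succ, ← ih, ht]
  have t0 : ∀ k, 0 ≤ (s k).2 := fun k => by
    rw [hsum]
    exact Finset.sum_nonneg fun j _ => d0 j
  refine ⟨fun k => ν (s k), fun k => μ (s k).2, fun k => m8 _, fun k => ?_, ?_, fun h => ?_⟩
  · beta_reduce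
    rw [hν (s (k + 1)), hi]
    split_ifs with h
    · rw [h, hν (s k)]
      nlinarith
    · nlinarith [Nat.zero_le (r (μ (s (k + 1)).2)), Nat.zero_le (μ (s (k + 1)).2)]
  · refine summable_of_sum_range_le (c := 2) (fun k => div_nonneg (h0 _) (by positivity))
      fun N => ?_
    have key : ∀ k, w (ν (s k)) / (μ (s k).2 : ℝ) ^ 4 ≤
        2 / (1 + (s k).2) - 2 / (1 + (s (k + 1)).2) := fun k => by
      have a0 := t0 k
      have a1 := d0 k
      have a2 := d1 k
      have a3 : (1 + (s k).2) ^ 2 ≤ (μ (s k).2 : ℝ) := by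
        rw [hμ]
        push_cast
        exact pow_le_pow_left₀ (by linarith) (by linarith [Nat.le_ceil (s k).2]) 2
      rw [ht, pow_succ, ← div_div]
      generalize w (ν (s k)) / (μ (s k).2 : ℝ) ^ 3 = d at a1 a2
      refine (div_le_div_of_nonneg_left a1 (by positivity) a3).trans ?_
      rw [div_sub_div _ _ (by positivity) (by positivity),
        div_le_div_iff₀ (by positivity) (by positivity)]
      have a4 : 0 ≤ d * (1 + (s k).2) * (1 + (s k).2 - d) :=
        mul_nonneg (mul_nonneg a1 (by linarith)) (by linarith)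
      nlinarith
    refine (Finset.sum_le_sum fun k _ => key k).trans ?_
    rw [Finset.sum_range_sub' fun k => 2 / (1 + (s k).2), s0]
    have : 0 ≤ 2 / (1 + (s N).2) := div_nonneg zero_le_two (by linarith [t0 N])
    linarith
  · have hb : BddAbove (Set.range fun k => ⌈(s k).2⌉₊) := by
      refine ⟨⌈∑' j, w (ν (s j)) / (μ (s j).2 : ℝ) ^ 3⌉₊, ?_⟩
      rintro _ ⟨k, rfl⟩
      refine Nat.ceil_mono ?_
      rw [hsum]
      exact h.sum_le_tsum _ fun j _ => d0 j
    have hm : Monotone fun k => ⌈(s k).2⌉₊ := monotone_nat_of_le_succ fun k =>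
      Nat.ceil_mono (by rw [ht]; linarith [d0 k])
    obtain ⟨K, hK⟩ := Nat.sSup_mem (Set.range_nonempty fun k => ⌈(s k).2⌉₊) hb
    have hc : ∀ j, μ (s (j + K)).2 = μ (s K).2 := fun j => by
      have e : ⌈(s (j + K)).2⌉₊ = ⌈(s K).2⌉₊ :=
        le_antisymm ((le_csSup hb ⟨j + K, rfl⟩).trans hK.ge) (hm (Nat.le_add_left K j))
      rw [hμ, hμ, e]
    have hj : ∀ j, (s (j + K)).1 = j + (s K).1 := fun j => by
      induction j with
      | zero => simp
      | succ j ih =>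
        have := hc (j + 1)
        rw [Nat.add_right_comm] at this ⊢
        rw [hi, if_pos (this.trans (hc j).symm), ih, Nat.add_right_comm]
    refine hr (μ (s K).2) ((summable_nat_add_iff (s K).1).1 ?_)
    refine (((summable_nat_add_iff K).2 h).mul_right ((μ (s K).2 : ℝ) ^ 3)).congr fun j => ?_
    have := m1 (s K).2
    beta_reduce
    rw [hν, hc, hj, div_mul_cancel₀ _ (by positivity)]

lemma pf_real_ThEmb (r : ℝ) (y : Tc) : pf r y = 1 + r * cs 1 y := by
  simp only [pf, cs, Complex.re_ofReal_mul, Nat.cast_one]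

lemma pf_pi_ThEmb (r : ℝ) (y : Tc) : pf r (y + ((π : ℝ) : Tc)) = 1 + -r * cs 1 y := by
  have h : fourier 1 ((π : ℝ) : Tc) = -1 := by
    rw [fourier_coe_apply, ← Complex.exp_pi_mul_I]
    congr 1
    have hp : (π : ℂ) ≠ 0 := by exact_mod_cast Real.pi_ne_zero
    push_cast
    field_simp
  simp only [pf, cs, fourier_add_right, h, Complex.re_ofReal_mul, Nat.cast_one, neg_mul, one_mul,
    Complex.neg_re, mul_neg]

lemma lim_ThEmb {lam n ρ : ℕ → ℕ} {α γ : ℕ → ℝ} {p : ℕ → Tc → ℝ}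
    (hn : ∀ k, n k + 2 ≤ n (k + 1)) (hl : ∀ k, lam (n k + 1) = ρ k * lam (n k))
    (h0 : ∀ j y, (¬ ∃ k, n k = j) → (¬ ∃ k, n k + 1 = j) → p j y = 1)
    (h1 : ∀ k y, p (n k) y = 1 + α k * cs 1 y) (h2 : ∀ k y, p (n k + 1) y = 1 + γ k * cs 1 y)
    (μ : Measure Tc) (h : Lim lam p μ) :
    Lim (fun k => lam (n k)) (fun k => bA (α k) (γ k) (ρ k)) μ := by
  have hs : StrictMono n := strictMono_nat_of_lt_succ fun k => by have := hn k; omega
  have key : ∀ K x, ∏ j ∈ Finset.range (n K), p j ((lam j : ℤ) • x) =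
      ∏ k ∈ Finset.range K, bA (α k) (γ k) (ρ k) ((lam (n k) : ℤ) • x) := fun K x => by
    induction K with
    | zero =>
      refine Finset.prod_eq_one fun j hj => ?_
      have hj' := Finset.mem_range.1 hj
      refine h0 _ _ ?_ ?_ <;> rintro ⟨k, e⟩ <;> have := hs.monotone (Nat.zero_le k) <;> omega
    | succ K ih =>
      obtain ⟨i, hi⟩ : ∃ i, n (K + 1) = n K + (i + 1 + 1) :=
        ⟨n (K + 1) - n K - 2, by have := hn K; omega⟩
      rw [Finset.prod_range_succ, ← ih, hi, Finset.prod_range_add, Finset.prod_range_succ',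
        Finset.prod_range_succ', Finset.prod_eq_one (s := Finset.range i), one_mul, zero_add,
        add_zero, h1, h2, hl, bA, cs_smul, cs_smul, cs_smul, one_mul, one_mul,
        mul_comm (1 + γ K * _)]
      intro j hj
      have hj' := Finset.mem_range.1 hj
      refine h0 _ _ ?_ ?_ <;> rintro ⟨k, e⟩ <;> rcases le_or_gt k K with t | t
      · have := hs.monotone t; omega
      · have := hs.monotone (Nat.succ_le_of_lt t); simp only [Nat.succ_eq_add_one] at this; omega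
      · have := hs.monotone t; omega
      · have := hs.monotone (Nat.succ_le_of_lt t); simp only [Nat.succ_eq_add_one] at this; omega
  refine ⟨h.1, fun f => ?_⟩
  simpa only [Function.comp_def, key] using (h.2 f).comp hs.tendsto_atTop

end Pool.Agent.MP_b30265_an.Th
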