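import Pool.Agent.MP_b30265_an.Th.PartA

open MeasureTheory Filter Topology Real

noncomputable section

namespace Pool.Agent.MP_b30265_an.Th

/-- the Dirichlet kernel -/
def G_ThFej : ℕ → Tc → ℝ
  | 0 => fun _ => 1
  | j + 1 => fun y => G_ThFej j y + 2 * cs (j + 1) y

/-- the Fejer kernel, not normalised -/
def F_ThFej : ℕ → Tc → ℝ
  | 0 => fun _ => 0
  | j + 1 => fun y => F_ThFej j y + G_ThFej j y

theorem cs0_ThFej (y : Tc) : cs 0 y = 1 := by
  induction y using QuotientAddGroup.induction_on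
  rw [cs_coe]; simp

theorem cos2_ThFej (n : ℕ) (x : ℝ) : Real.cos (((n + 1 + 1 : ℕ) : ℝ) * x) =
    2 * Real.cos x * Real.cos (((n + 1 : ℕ) : ℝ) * x) - Real.cos (n * x) := by
  rw [show ((n + 1 + 1 : ℕ) : ℝ) * x = ((n + 1 : ℕ) : ℝ) * x + x by push_cast; ring,
    show (n : ℝ) * x = ((n + 1 : ℕ) : ℝ) * x - x by push_cast; ring, Real.cos_add, Real.cos_sub]
  ring

theorem cs2_ThFej (n : ℕ) (y : Tc) : cs (n + 1 + 1) y = 2 * cs 1 y * cs (n + 1) y - cs n y := by
  induction y using QuotientAddGroup.induction_on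
  rw [cs_coe, cs_coe, cs_coe, cs_coe, cos2_ThFej, Nat.cast_one, one_mul]

theorem Gall_ThFej (j : ℕ) : TP 1 j (G_ThFej j) ∧ ∫ y, G_ThFej j y ∂hm = 1 ∧
    ∀ y, (1 - cs 1 y) * G_ThFej j y = cs j y - cs (j + 1) y ∧ G_ThFej j y ≤ 2 * j + 1 ∧
      ((∀ i ≤ j, 1 / 2 ≤ cs i y) → (2 * j + 1) / 2 ≤ G_ThFej j y) := by
  induction j with
  | zero =>
    refine ⟨TP.const 1 0 1, by simp [G_ThFej], fun y => ?_⟩
    simp only [G_ThFej, cs0_ThFej]
    norm_num
  | succ j ih =>
    obtain ⟨h1, h2, h3⟩ := ih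
    have hc : TP 1 (j + 1) (fun y => 2 * cs (j + 1) y) :=
      ((TP.cs (j + 1)).mono (one_dvd _) le_rfl).smul 2
    refine ⟨(h1.mono dvd_rfl (Nat.le_succ j)).add hc, ?_, fun y => ?_⟩
    · simp only [G_ThFej]
      rw [integral_add (integrable_of_continuous _ h1.continuous)
        (integrable_of_continuous _ hc.continuous), h2, integral_const_mul,
        integral_cs (Nat.succ_ne_zero j)]
      ring
    · obtain ⟨a1, a2, a3⟩ := h3 y
      have a4 := (abs_le.1 (abs_cs_le (j + 1) y)).2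
      simp only [G_ThFej]
      refine ⟨?_, by push_cast; linarith, fun h => ?_⟩
      · rw [cs2_ThFej]; linear_combination a1
      · have := a3 fun i hi => h i (by omega)
        have := h (j + 1) le_rfl
        push_cast; linarith

theorem Fall_ThFej (D : ℕ) : TP 1 D (F_ThFej D) ∧ ∫ y, F_ThFej D y ∂hm = D ∧
    ∀ y, (1 - cs 1 y) * F_ThFej D y = 1 - cs D y ∧ F_ThFej D y ≤ (D : ℝ) ^ 2 ∧
      ((∀ i ≤ D, 1 / 2 ≤ cs i y) → (D : ℝ) ^ 2 / 2 ≤ F_ThFej D y) := by
  induction D with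
  | zero =>
    refine ⟨TP.const 1 0 0, by simp [F_ThFej], fun y => ?_⟩
    simp only [F_ThFej, cs0_ThFej]
    norm_num
  | succ j ih =>
    obtain ⟨h1, h2, h3⟩ := ih
    obtain ⟨g1, g2, g3⟩ := Gall_ThFej j
    refine ⟨(h1.add g1).mono dvd_rfl (Nat.le_succ j), ?_, fun y => ?_⟩
    · simp only [F_ThFej]
      rw [integral_add (integrable_of_continuous _ h1.continuous)
        (integrable_of_continuous _ g1.continuous), h2, g2, Nat.cast_succ]
    · obtain ⟨a1, a2, a3⟩ := h3 y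
      obtain ⟨b1, b2, b3⟩ := g3 y
      simp only [F_ThFej]
      refine ⟨by linear_combination a1 + b1, by push_cast; linarith, fun h => ?_⟩
      have := a3 fun i hi => h i (by omega)
      have := b3 fun i hi => h i (by omega)
      push_cast; linarith

theorem sFej : SFej := by
  intro D
  obtain ⟨h1, h2, h3⟩ := Fall_ThFej D
  refine ⟨_, h1, h2, fun y => ?_⟩
  obtain ⟨a1, a2, a3⟩ := h3 y
  have c1 : 0 ≤ 1 - cs 1 y := sub_nonneg.2 (abs_le.1 (abs_cs_le 1 y)).2
  have hD : (0 : ℝ) ≤ (D : ℝ) ^ 2 := sq_nonneg _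
  have a4 : (D : ℝ) ^ 2 * (1 - cs 1 y) ≤ 1 / 2 → (D : ℝ) ^ 2 / 4 ≤ F_ThFej D y := by
    intro h
    have := a3 fun i hi => by
      obtain ⟨b1, b2, -⟩ := (Fall_ThFej i).2.2 y
      have b3 : (i : ℝ) ^ 2 ≤ (D : ℝ) ^ 2 :=
        pow_le_pow_left₀ (Nat.cast_nonneg i) (Nat.cast_le.2 hi) 2
      have := mul_le_mul_of_nonneg_left (b2.trans b3) c1
      linarith
    linarith
  refine ⟨?_, a2, a1, a4⟩
  rcases c1.eq_or_lt with c | c
  · have := a4 (by rw [← c]; norm_num)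
    linarith
  · exact (mul_nonneg_iff_of_pos_left c).1 (a1 ▸ sub_nonneg.2 (abs_le.1 (abs_cs_le D y)).2)

theorem rem_ThFej {t : Tc → ℝ} (ht : TP 1 1 t) (d : ℕ) : ∃ r : Tc → ℝ, TP 1 d r ∧
    ∀ y θ, Real.cos θ = 1 - t y → Real.cos (d * θ) = 1 - (d : ℝ) ^ 2 * t y + t y ^ 2 * r y := by
  induction d using Nat.twoStepInduction with
  | zero => exact ⟨fun _ => 0, TP.const 1 0 0, fun y θ _ => by simp⟩
  | one => exact ⟨fun _ => 0, TP.const 1 1 0, fun y θ h => by simp [h]⟩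
  | more d h0 h1 =>
    obtain ⟨r0, a0, b0⟩ := h0
    obtain ⟨r1, a1, b1⟩ := h1
    refine ⟨fun y => 2 * ((d : ℝ) + 1) ^ 2 + 2 * ((1 - t y) * r1 y) - r0 y,
      ((TP.const _ _ _).add (((((TP.const 1 1 1).sub ht).mul a1).mono dvd_rfl (by omega)).smul
        2)).sub (a0.mono dvd_rfl (by omega)), fun y θ h => ?_⟩
    rw [cos2_ThFej, b0 y θ h, b1 y θ h, h]
    push_cast; ring

theorem sCheb : SCheb := by
  intro d t hd ht h4 h2
  obtain ⟨r, a, b⟩ := rem_ThFej ht d
  have hd' : (0 : ℝ) < (d : ℝ) ^ 2 := by positivity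
  refine ⟨fun y => ((d : ℝ) ^ 2)⁻¹ * r y, a.smul _, fun y => ?_⟩
  have t0 : 0 < t y := lt_of_lt_of_le (by positivity) (h4 y)
  have t4 : 4 ≤ t y * (d : ℝ) ^ 2 := (div_le_iff₀ hd').1 (h4 y)
  have c := b y (Real.arccos (1 - t y)) (Real.cos_arccos (by linarith [h2 y]) (by linarith))
  have c1 := Real.cos_le_one (d * Real.arccos (1 - t y))
  have c2 := Real.neg_one_le_cos (d * Real.arccos (1 - t y))
  have e : t y * (((d : ℝ) ^ 2)⁻¹ * r y) = t y ^ 2 * r y / (t y * (d : ℝ) ^ 2) := by field_simp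
  have p : 0 < t y * (d : ℝ) ^ 2 := by positivity
  rw [e, ← mul_div_assoc, le_div_iff₀ p, div_le_iff₀ p]
  constructor <;> linarith

lemma mean_ThBlockB (α β : ℂ) : ∃ θ : Tc, ∀ y,
    (pf α y + pf β y) / 2 = 1 - ‖(α + β) / 2‖ * cs 1 (y + θ) := by
  set c := (α + β) / 2 with hc
  refine ⟨((Complex.arg (-c) : ℝ) : Tc), fun y => ?_⟩
  have h1 : fourier 1 ((Complex.arg (-c) : ℝ) : Tc) = Complex.exp (Complex.arg (-c) * Complex.I) := by
    rw [fourier_coe_apply]
    congr 1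
    have : (π : ℂ) ≠ 0 := Complex.ofReal_ne_zero.2 Real.pi_ne_zero
    push_cast
    field_simp
  have h2 := Complex.norm_mul_exp_arg_mul_I (-c)
  rw [norm_neg] at h2
  have h3 : ‖c‖ * cs 1 (y + ((Complex.arg (-c) : ℝ) : Tc)) = (-c * fourier 1 y).re := by
    unfold cs
    rw [Nat.cast_one, fourier_add_right, h1, ← Complex.re_ofReal_mul, ← mul_assoc, h2]
  rw [h3, hc]
  unfold pf
  have h4 : -((α + β) / 2) * fourier 1 y =
      ((-1 / 2 : ℝ) : ℂ) * (α * fourier 1 y + β * fourier 1 y) := by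
    push_cast
    ring
  rw [h4, Complex.re_ofReal_mul, Complex.add_re]
  ring

lemma pt_ThBlockB {p q η R F D N C : ℝ} (hp : 0 < p) (hq : 0 < q) (h0 : 0 < η) (h1 : η ≤ 1 / 9)
    (hR0 : 0 < R) (hR : 1 ≤ 2 * ((η + (1 - η) * ((p + q) / 2)) * R)) (hF : 0 ≤ F)
    (hF' : D ^ 2 * (1 - C) ≤ 1 / 2 → D ^ 2 / 4 ≤ F) (hD : 0 < D) (hD' : D ^ 2 * η ≤ 4 / 9)
    (hN : 0 ≤ N) (hN' : N ≤ 1) (hm : (p + q) / 2 = 1 - N * C) :
    (p - q) ^ 2 ≤ 2 * (p + q) * ((p - q) ^ 2 * R + 4 * η / D ^ 2 * F) := by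
  have h2 : 0 ≤ 4 * η / D ^ 2 * F := by positivity
  have h3 : 0 ≤ (p - q) ^ 2 := sq_nonneg _
  rcases le_or_gt η ((p + q) / 2) with h | h
  · have h4 : η + (1 - η) * ((p + q) / 2) ≤ p + q := by nlinarith
    have h5 : 1 ≤ 2 * (p + q) * R := by nlinarith [mul_le_mul_of_nonneg_right h4 hR0.le]
    have h6 := mul_le_mul_of_nonneg_left h5 h3
    have h7 : 0 ≤ 2 * (p + q) * (4 * η / D ^ 2 * F) := by positivity
    nlinarith
  · have h4 : 0 < N * C := by linarith
    have h5 : 0 < C := by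
      by_contra hc
      nlinarith [mul_nonneg hN (neg_nonneg.2 (not_lt.1 hc))]
    have h6 : 1 - C ≤ η := by nlinarith
    have h7 := hF' (by nlinarith [mul_le_mul_of_nonneg_left h6 (sq_nonneg D)])
    have h8 : η ≤ 4 * η / D ^ 2 * F := by
      calc η = 4 * η / D ^ 2 * (D ^ 2 / 4) := by field_simp
        _ ≤ _ := mul_le_mul_of_nonneg_left h7 (by positivity)
    have h9 : (p + q) / 2 ≤ (p - q) ^ 2 * R + 4 * η / D ^ 2 * F := by
      nlinarith [mul_nonneg h3 hR0.le]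
    have h10 := mul_le_mul_of_nonneg_left h9 (show 0 ≤ 2 * (p + q) by positivity)
    nlinarith [mul_pos hp hq]

lemma low_ThBlockB {p q η R : ℝ} (hp : 0 < p) (hq : 0 < q) (h0 : 0 < η) (h1 : η ≤ 1 / 9)
    (hR0 : 0 < R) (hR : (η + (1 - η) * ((p + q) / 2)) * R ≤ 1) :
    (1 / 8 * ((p - q) * R)) ^ 2 * (p + q) ≤ 1 / 16 * ((p - q) ^ 2 * R) := by
  have h2 : 0 < (p + q) * R := by positivity
  have h3 : (p + q) * R ≤ 4 := by nlinarith [mul_pos h0 hR0]
  have h4 := mul_le_mul_of_nonneg_left h3 (show 0 ≤ (p - q) ^ 2 * R by positivity)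
  nlinarith

theorem sBlockB (hF : SFej) (hC : SCheb) : SBlockB := by
  intro α β d hα hβ hd
  have hd' : (6 : ℝ) ≤ d := by exact_mod_cast hd
  set η : ℝ := 4 / (d : ℝ) ^ 2 with hη
  have h0 : 0 < η := by positivity
  have h1 : η ≤ 1 / 9 := by
    rw [hη, div_le_div_iff₀ (by positivity) (by norm_num)]
    nlinarith
  have hp := pf_pos hα
  have hq := pf_pos hβ
  have hu : TP 1 1 fun y => pf α y - pf β y := (TP_pf α).sub (TP_pf β)
  have ht : TP 1 1 fun y => η + (1 - η) * ((pf α y + pf β y) / 2) := by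
    have := (TP.const 1 1 η).add (((TP_pf α).add (TP_pf β)).smul ((1 - η) / 2))
    convert this using 2
    ring
  have hlo : ∀ y, η ≤ η + (1 - η) * ((pf α y + pf β y) / 2) := fun y => by
    have := hp y
    have := hq y
    have : 0 ≤ (1 - η) * ((pf α y + pf β y) / 2) := mul_nonneg (by linarith) (by positivity)
    linarith
  obtain ⟨R, hR, hR'⟩ := hC d _ (by omega) ht hlo fun y => by
    nlinarith [pf_le hα y, pf_le hβ y, hp y, hq y]
  have hR0 : ∀ y, 0 < R y := fun y => by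
    by_contra hc
    nlinarith [(hR' y).1, mul_nonneg (h0.le.trans (hlo y)) (neg_nonneg.2 (not_lt.1 hc))]
  have hS : TP 1 (d + 2) fun y => (pf α y - pf β y) ^ 2 * R y := by
    have := ((hu.mul hu).mul hR).mono dvd_rfl (show 1 + 1 + d ≤ d + 2 by omega)
    simpa only [pow_two] using this
  have hSi := integrable_of_continuous hm hS.continuous
  refine ⟨∫ y, (pf α y - pf β y) ^ 2 * R y ∂hm,
    integral_nonneg fun y => mul_nonneg (sq_nonneg _) (hR0 y).le, ?_, ?_⟩
  · obtain ⟨F, f1, f2, f3⟩ := hF (d / 3)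
    obtain ⟨θ, hθ⟩ := mean_ThBlockB α β
    have hD1 : (3 : ℝ) * (d / 3 : ℕ) ≤ d := by exact_mod_cast Nat.mul_div_le d 3
    have hD2 : (d : ℝ) ≤ 6 * (d / 3 : ℕ) := by exact_mod_cast (show d ≤ 6 * (d / 3) by omega)
    have hD0 : (0 : ℝ) < (d / 3 : ℕ) := by linarith
    set D : ℝ := ((d / 3 : ℕ) : ℝ) with hD
    have hG : TP 1 (d + 2) fun y => 4 * η / D ^ 2 * F (y + θ) :=
      ((TP_shift f1 θ).smul _).mono dvd_rfl (by omega)
    refine ⟨_, hS.add hG, fun y => ?_, ?_⟩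
    · refine pt_ThBlockB (hp y) (hq y) h0 h1 (hR0 y) (hR' y).1 (f3 _).1 (f3 _).2.2.2 hD0 ?_
        (norm_nonneg _) ?_ (hθ y)
      · rw [hη, ← mul_div_assoc, div_le_div_iff₀ (by positivity) (by norm_num)]
        nlinarith
      · rw [norm_div, Complex.norm_two]
        linarith [norm_add_le α β]
    · rw [integral_add hSi (integrable_of_continuous hm hG.continuous), integral_const_mul,
        integral_shift, f2]
      have e : 4 * η / D ^ 2 * D = 16 / ((d : ℝ) ^ 2 * D) := by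
        rw [hη]
        field_simp
        norm_num
      rw [e, add_le_add_iff_left, div_le_div_iff₀ (by positivity) (by positivity)]
      nlinarith [mul_le_mul_of_nonneg_left hD2 (show (0 : ℝ) ≤ (d : ℝ) ^ 2 by positivity)]
  · have hx : TP 1 (d + 1) fun y => 1 / 8 * ((pf α y - pf β y) * R y) :=
      ((hu.mul hR).smul _).mono dvd_rfl (by omega)
    refine ⟨_, hx, ?_⟩
    have e1 : ∫ y, 1 / 8 * ((pf α y - pf β y) * R y) * (pf α y - pf β y) ∂hm =
        1 / 8 * ∫ y, (pf α y - pf β y) ^ 2 * R y ∂hm := by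
      rw [← integral_const_mul]
      congr 1
      funext y
      ring
    have e2 : ∫ y, (1 / 8 * ((pf α y - pf β y) * R y)) ^ 2 * (pf α y + pf β y) ∂hm ≤
        1 / 16 * ∫ y, (pf α y - pf β y) ^ 2 * R y ∂hm := by
      rw [← integral_const_mul]
      exact integral_mono (integrable_of_continuous hm ((hx.continuous.pow 2).mul
        ((TP_pf α).add (TP_pf β)).continuous)) (hSi.const_mul _) fun y =>
        low_ThBlockB (hp y) (hq y) h0 h1 (hR0 y) (hR' y).2
    have e3 : 0 ≤ ∫ y, (pf α y - pf β y) ^ 2 * R y ∂hm :=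
      integral_nonneg fun y => mul_nonneg (sq_nonneg _) (hR0 y).le
    rw [e1]
    linarith

lemma up_ThBlockA {δ c r F : ℝ} (h0 : 0 < δ) (h1 : δ ≤ 1 / 2) (hc : |c| ≤ 1)
    (hF : 0 ≤ F) (he : (1 - c) * F = 1 - r) :
    ((1 + -(1 - δ / 2) * c) * (1 + -(1 - δ) * r) - (1 + -(1 - δ) * c) * (1 + -(1 - δ) * r)) ^ 2 ≤
      2 * ((1 + -(1 - δ / 2) * c) * (1 + -(1 - δ) * r) +
        (1 + -(1 - δ) * c) * (1 + -(1 - δ) * r)) * (δ ^ 2 / 8 * (1 + F)) := by
  obtain ⟨hc1, hc2⟩ := abs_le.1 hc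
  obtain ⟨t, rfl⟩ : ∃ t, c = 1 - t := ⟨1 - c, by ring⟩
  have ht : 0 ≤ t := by linarith
  have htF : 0 ≤ t * F := mul_nonneg ht hF
  have hr : r = 1 - t * F := by linarith [he]
  obtain ⟨w, hw⟩ : ∃ w, w = 1 + -(1 - δ) * r := ⟨_, rfl⟩
  rw [← hw]
  have hw1 : w = δ + (1 - δ) * (t * F) := by rw [hw, hr]; ring
  have hw0 : 0 ≤ w := by
    rw [hw1]
    have : 0 ≤ (1 - δ) * (t * F) := mul_nonneg (by linarith) htF
    linarith
  have hw2 : w ≤ δ + t * F := by
    rw [hw1]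
    have : 0 ≤ δ * (t * F) := mul_nonneg h0.le htF
    linarith
  obtain ⟨S, hS⟩ : ∃ S, S = 3 * δ / 2 + (2 - 3 * δ / 2) * t := ⟨_, rfl⟩
  have hS1 : t + δ ≤ S := by
    rw [hS]
    have : 0 ≤ (1 - 3 * δ / 2) * t := mul_nonneg (by linarith) ht
    linarith
  have hS2 : w ≤ S * (1 + F) := by
    have h2 : (t + δ) * (1 + F) ≤ S * (1 + F) := mul_le_mul_of_nonneg_right hS1 (by linarith)
    have h3 : 0 ≤ δ * F := mul_nonneg h0.le hF
    nlinarith
  have hcc : (1 - t) ^ 2 ≤ 1 := by nlinarith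
  have e1 : ((1 + -(1 - δ / 2) * (1 - t)) * w - (1 + -(1 - δ) * (1 - t)) * w) ^ 2
      = δ ^ 2 / 4 * w * ((1 - t) ^ 2 * w) := by ring
  have e2 : 2 * ((1 + -(1 - δ / 2) * (1 - t)) * w + (1 + -(1 - δ) * (1 - t)) * w) *
      (δ ^ 2 / 8 * (1 + F)) = δ ^ 2 / 4 * w * (S * (1 + F)) := by rw [hS]; ring
  rw [e1, e2]
  refine mul_le_mul_of_nonneg_left ?_ (by positivity)
  have : (1 - t) ^ 2 * w ≤ 1 * w := mul_le_mul_of_nonneg_right hcc hw0
  linarith

lemma low_ThBlockA {δ c r s F G : ℝ} (h0 : 0 < δ) (h1 : δ ≤ 1 / 2) (hc : |c| ≤ 1) (hr : |r| ≤ 1)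
    (hs : |s| ≤ 1) (hF : 0 ≤ F) (hG : 0 ≤ G) (hG1 : δ * G ≤ 1) (he : (1 - c) * F = 1 - r)
    (hd : (1 - c) * G = 1 - s) :
    δ ^ 2 * (G / 256 - F / 96 - (1 - s) / 96) ≤
      (-(δ / 96) * G) * ((1 + -(1 - δ / 2) * c) * (1 + (1 - δ) * r) -
          (1 + -(1 - δ) * c) * (1 + (1 - δ) * r)) -
        (-(δ / 96) * G) ^ 2 * ((1 + -(1 - δ / 2) * c) * (1 + (1 - δ) * r) +
          (1 + -(1 - δ) * c) * (1 + (1 - δ) * r)) := by
  obtain ⟨hc1, hc2⟩ := abs_le.1 hc
  obtain ⟨hr1, hr2⟩ := abs_le.1 hr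
  obtain ⟨hs1, hs2⟩ := abs_le.1 hs
  obtain ⟨t, rfl⟩ : ∃ t, c = 1 - t := ⟨1 - c, by ring⟩
  have ht : 0 ≤ t := by linarith
  have he' : t * F = 1 - r := by linarith [he]
  have hd' : t * G = 1 - s := by linarith [hd]
  obtain ⟨w, hw⟩ : ∃ w, w = 1 + (1 - δ) * r := ⟨_, rfl⟩
  rw [← hw]
  have hw0 : 0 ≤ w := by rw [hw]; nlinarith
  have hw2 : w ≤ 2 := by rw [hw]; nlinarith
  have hwr : r ≤ w := by rw [hw]; nlinarith
  obtain ⟨S, hS⟩ : ∃ S, S = 3 * δ / 2 + (2 - 3 * δ / 2) * t := ⟨_, rfl⟩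
  have hδt : 0 ≤ δ * t := mul_nonneg h0.le ht
  have hS0 : 0 ≤ S := by
    rw [hS]
    have : 0 ≤ (2 - 3 * δ / 2) * t := mul_nonneg (by linarith) ht
    linarith
  have hS1 : S ≤ 2 * t + 2 * δ := by rw [hS]; nlinarith
  have e1 : (-(δ / 96) * G) * ((1 + -(1 - δ / 2) * (1 - t)) * w - (1 + -(1 - δ) * (1 - t)) * w) -
      (-(δ / 96) * G) ^ 2 * ((1 + -(1 - δ / 2) * (1 - t)) * w + (1 + -(1 - δ) * (1 - t)) * w)
      = δ ^ 2 * (G * ((1 - t) * w) / 192 - G * (G * (S * w)) / 9216) := by rw [hS]; ring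
  rw [e1]
  refine mul_le_mul_of_nonneg_left ?_ (by positivity)
  have a1 : 1 - t * F - 2 * t ≤ (1 - t) * w := by
    have : t * w ≤ t * 2 := mul_le_mul_of_nonneg_left hw2 ht
    nlinarith
  have a2 : G - 2 * F - 2 * (1 - s) ≤ G * ((1 - t) * w) := by
    have b1 : G * (1 - t * F - 2 * t) ≤ G * ((1 - t) * w) := mul_le_mul_of_nonneg_left a1 hG
    have b2 : G * (1 - t * F - 2 * t) = G - (t * G) * F - 2 * (t * G) := by ring
    have b3 : (1 - s) * F ≤ 2 * F := mul_le_mul_of_nonneg_right (by linarith) hF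
    rw [b2, hd'] at b1
    linarith
  have a3 : G * (S * w) ≤ 12 := by
    have b1 : S * w ≤ (2 * t + 2 * δ) * 2 := mul_le_mul hS1 hw2 hw0 (by linarith)
    have b2 : G * (S * w) ≤ G * ((2 * t + 2 * δ) * 2) := mul_le_mul_of_nonneg_left b1 hG
    have b3 : G * ((2 * t + 2 * δ) * 2) = 4 * (t * G) + 4 * (δ * G) := by ring
    rw [b3, hd'] at b2
    linarith
  have a4 : G * (G * (S * w)) ≤ G * 12 := mul_le_mul_of_nonneg_left a3 hG
  linarith

lemma cont_ThBlockA (α γ : ℝ) (ρ : ℕ) : Continuous (bA α γ ρ) :=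
  (TP_factor α 1).continuous.mul (TP_factor γ ρ).continuous

theorem sBlockA (hF : SFej) : SBlockA := by
  intro ρ M δ hρ hM hδ
  have hρ' : (2 : ℝ) ≤ ρ := by exact_mod_cast hρ
  have hM' : (8 : ℝ) ≤ M := by exact_mod_cast hM
  have hD : (16 : ℝ) ≤ (M : ℝ) * ρ := by nlinarith
  have hD2 : (2 : ℝ) ≤ ((M : ℝ) * ρ) ^ 2 := by nlinarith
  have h0 : 0 < δ := by rw [hδ]; positivity
  have h1 : δ ≤ 1 / 2 := by rw [hδ]; exact one_div_le_one_div_of_le (by norm_num) hD2
  have hδD : δ * ((M : ℝ) * ρ) ^ 2 = 1 := by rw [hδ]; field_simp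
  obtain ⟨F, hF1, hF2, hF3⟩ := hF ρ
  obtain ⟨G, hG1, hG2, hG3⟩ := hF (M * ρ)
  have iF : Integrable F hm := integrable_of_continuous _ hF1.continuous
  have iG : Integrable G hm := integrable_of_continuous _ hG1.continuous
  constructor
  · refine ⟨fun y => δ ^ 2 / 8 * (1 + F y), ((TP.const 1 ρ 1).add hF1).smul _, fun y => ?_, ?_⟩
    · exact up_ThBlockA h0 h1 (abs_cs_le 1 y) (hF3 y).1 (hF3 y).2.2.1
    · rw [integral_const_mul, integral_add (integrable_const _) iF, hF2]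
      have e : 1 / ((ρ : ℝ) ^ 3 * (M : ℝ) ^ 4) = δ ^ 2 * ρ := by rw [hδ]; field_simp
      rw [e]
      simp only [integral_const, probReal_univ, smul_eq_mul, mul_one]
      have : 0 ≤ δ ^ 2 := by positivity
      nlinarith
  · refine ⟨fun y => -(δ / 96) * G y, hG1.smul _, ?_⟩
    have hx : Continuous fun y => -(δ / 96) * G y := (hG1.smul _).continuous
    have hp := cont_ThBlockA (-(1 - δ / 2)) (1 - δ) ρ
    have hq := cont_ThBlockA (-(1 - δ)) (1 - δ) ρ
    have hMρ : M * ρ ≠ 0 := by positivity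
    have ic : Integrable (cs (M * ρ)) hm :=
      integrable_of_continuous _ (TP.cs (M * ρ)).continuous
    have i1 : Integrable (fun y => -(δ / 96) * G y *
        (bA (-(1 - δ / 2)) (1 - δ) ρ y - bA (-(1 - δ)) (1 - δ) ρ y)) hm :=
      integrable_of_continuous _ (hx.mul (hp.sub hq))
    have i2 : Integrable (fun y => (-(δ / 96) * G y) ^ 2 *
        (bA (-(1 - δ / 2)) (1 - δ) ρ y + bA (-(1 - δ)) (1 - δ) ρ y)) hm :=
      integrable_of_continuous _ ((hx.pow 2).mul (hp.add hq))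
    have j1 : Integrable (fun y => G y / 256) hm := iG.div_const _
    have j2 : Integrable (fun y => F y / 96) hm := iF.div_const _
    have j3 : Integrable (fun y => G y / 256 - F y / 96) hm := j1.sub j2
    have j4 : Integrable (fun y => (1 - cs (M * ρ) y) / 96) hm :=
      ((integrable_const _).sub ic).div_const _
    beta_reduce
    rw [← integral_sub i1 i2]
    have hI : ∫ y, δ ^ 2 * (G y / 256 - F y / 96 - (1 - cs (M * ρ) y) / 96) ∂hm
        = δ ^ 2 * ((M : ℝ) * ρ / 256 - ρ / 96 - 1 / 96) := by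
      rw [integral_const_mul, integral_sub j3 j4, integral_sub j1 j2,
        integral_div, integral_div, integral_div, integral_sub (integrable_const _) ic, hF2, hG2,
        integral_cs hMρ]
      simp
    have e : 1 / (768 * ((ρ : ℝ) ^ 3 * (M : ℝ) ^ 3)) = δ ^ 2 * ((M : ℝ) * ρ / 768) := by
      rw [hδ]; field_simp
    have hle : δ ^ 2 * ((M : ℝ) * ρ / 768) ≤ δ ^ 2 * ((M : ℝ) * ρ / 256 - ρ / 96 - 1 / 96) := by
      refine mul_le_mul_of_nonneg_left ?_ (by positivity)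
      nlinarith
    rw [e]
    refine hle.trans ?_
    rw [← hI]
    refine integral_mono ?_ ?_ fun y => ?_
    · exact (j3.sub j4).const_mul _
    · exact i1.sub i2
    · have hGy : δ * G y ≤ 1 := by
        have := (hG3 y).2.1
        push_cast at this
        rw [← hδD]
        exact mul_le_mul_of_nonneg_left this h0.le
      exact low_ThBlockA h0 h1 (abs_cs_le 1 y) (abs_cs_le ρ y) (abs_cs_le (M * ρ) y) (hF3 y).1
        (hG3 y).1 hGy (hF3 y).2.2.1 (hG3 y).2.2.1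

lemma poisson {z : ℝ} (h0 : 0 ≤ z) (h1 : z < 1) :
    ∫ y, (1 - z ^ 2) / (1 + z ^ 2 - 2 * z * cs 1 y) ∂hm = 1 := by
  have hw : (z : ℂ) ∈ Metric.ball (0 : ℂ) 1 := by
    rw [mem_ball_zero_iff, Complex.norm_real, Real.norm_eq_abs, abs_of_nonneg h0]
    exact h1
  have h := (diffContOnCl_const (𝕜 := ℂ) (c := (1 : ℂ))
    (s := Metric.ball (0 : ℂ) 1)).circleAverage_poissonKernel_smul' hw
  rw [Real.circleAverage_def] at h
  have e : (fun θ : ℝ => ((‖circleMap 0 1 θ - 0‖ ^ 2 - ‖(z : ℂ) - 0‖ ^ 2)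
      / ‖(circleMap 0 1 θ - 0) - ((z : ℂ) - 0)‖ ^ 2) • (1 : ℂ))
      = fun θ : ℝ => (((1 - z ^ 2) / (1 + z ^ 2 - 2 * z * cs 1 (θ : Tc)) : ℝ) : ℂ) := by
    ext θ
    rw [Complex.real_smul, mul_one, cs_coe]
    congr 2
    · simp
    · rw [Complex.sq_norm, Complex.normSq_apply]
      simp only [circleMap, sub_zero, zero_add, Complex.ofReal_one, one_mul, Complex.sub_re,
        Complex.sub_im, Complex.exp_ofReal_mul_I_re, Complex.exp_ofReal_mul_I_im,
        Complex.ofReal_re, Complex.ofReal_im, Nat.cast_one]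
      nlinarith [Real.sin_sq_add_cos_sq θ]
  rw [e, intervalIntegral.integral_ofReal, Complex.real_smul] at h
  rw [integral_hm, one_div]
  exact_mod_cast h

lemma den_pos {r : ℝ} (h0 : 0 ≤ r) (h2 : r < 2) (y : Tc) : 0 < 2 - r * cs 1 y := by
  have := abs_le.1 (abs_cs_le 1 y)
  nlinarith [this.1, this.2]

lemma cont_J {r : ℝ} (h0 : 0 ≤ r) (h2 : r < 2) : Continuous fun y : Tc => 1 / (2 - r * cs 1 y) :=
  continuous_const.div (continuous_const.sub (continuous_const.mul (TP.cs 1).continuous))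
    fun y => (den_pos h0 h2 y).ne'

lemma J_bounds {r : ℝ} (h0 : 0 ≤ r) (h2 : r < 2) :
    1 / √(2 - r) ≤ 2 * ∫ y, 1 / (2 - r * cs 1 y) ∂hm ∧
      ∫ y, 1 / (2 - r * cs 1 y) ∂hm ≤ 1 / √(2 - r) := by
  set A := √(2 - r) with hA
  set B := √(2 + r) with hB
  have hA0 : 0 < A := Real.sqrt_pos.2 (by linarith)
  have hB0 : 0 < B := Real.sqrt_pos.2 (by linarith)
  have hA2 : A ^ 2 = 2 - r := Real.sq_sqrt (by linarith)
  have hB2 : B ^ 2 = 2 + r := Real.sq_sqrt (by linarith)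
  have hAB : A ≤ B := Real.sqrt_le_sqrt (by linarith)
  have hB1 : 1 ≤ B := by nlinarith
  have hB3 : B ≤ 2 := by nlinarith
  have hs : 0 < A + B := by linarith
  have hp := poisson (z := (B - A) / (A + B)) (div_nonneg (by linarith) hs.le)
    ((div_lt_one hs).2 (by linarith))
  have e : (fun y : Tc => (1 - ((B - A) / (A + B)) ^ 2)
      / (1 + ((B - A) / (A + B)) ^ 2 - 2 * ((B - A) / (A + B)) * cs 1 y))
      = fun y => A * B * (1 / (2 - r * cs 1 y)) := by
    ext y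
    have hd := den_pos h0 h2 y
    have e1 : 1 - ((B - A) / (A + B)) ^ 2 = 4 * (A * B) / (A + B) ^ 2 := by
      field_simp
      ring
    have e2 : 1 + ((B - A) / (A + B)) ^ 2 - 2 * ((B - A) / (A + B)) * cs 1 y
        = 4 * (2 - r * cs 1 y) / (A + B) ^ 2 := by
      field_simp
      linear_combination (2 + 2 * cs 1 y) * hA2 + (2 - 2 * cs 1 y) * hB2
    rw [e1, e2]
    field_simp
  rw [e, integral_const_mul] at hp
  set J := ∫ y, 1 / (2 - r * cs 1 y) ∂hm
  have hJ : J = 1 / (A * B) := by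
    field_simp
    linarith
  rw [hJ]
  constructor
  · rw [mul_one_div, div_le_div_iff₀ hA0 (by positivity)]
    nlinarith
  · exact one_div_le_one_div_of_le hA0 (by nlinarith)

lemma integral_re_sq (v : ℂ) : ∫ y, (v * fourier 1 y).re ^ 2 ∂hm = ‖v‖ ^ 2 / 2 := by
  have hc : Continuous fun y : Tc => v ^ 2 * fourier 2 y :=
    continuous_const.mul (fourier 2).continuous
  have hc2 : Continuous fun y : Tc => (v ^ 2 * fourier 2 y).re := Complex.continuous_re.comp hc
  have h2 := integral_re (𝕜 := ℂ) (μ := hm) (f := fun y : Tc => v ^ 2 * fourier 2 y)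
    (integrable_of_continuous _ hc)
  rw [integral_const_mul, integral_fourier] at h2
  simp only [RCLike.re_to_complex] at h2
  have e : (fun y : Tc => (v * fourier 1 y).re ^ 2)
      = fun y => ‖v‖ ^ 2 / 2 + (1 / 2) * (v ^ 2 * fourier 2 y).re := by
    ext y
    have h1 : fourier 2 y = fourier 1 y * fourier 1 y := by
      rw [← fourier_add]; norm_num
    have h3 : ‖v * fourier 1 y‖ = ‖v‖ := by
      rw [norm_mul, fourier_apply, Circle.norm_coe, mul_one]
    have h4 : v ^ 2 * fourier 2 y = (v * fourier 1 y) * (v * fourier 1 y) := by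
      rw [h1]; ring
    rw [h4, ← h3, Complex.sq_norm, Complex.normSq_apply, Complex.mul_re (v * fourier 1 y)]
    ring
  rw [e, integral_add (integrable_const _)
    (integrable_of_continuous _ (continuous_const.fun_mul hc2)), integral_const_mul, h2]
  simp

/-- the quadratic distance of two factors -/
def kak (α β : ℂ) : ℝ := ∫ y, (pf α y - pf β y) ^ 2 / (pf α y + pf β y) ∂hm

/-- its explicit form -/
def ks (α β : ℂ) : ℝ := ‖α - β‖ ^ 2 + (‖α‖ ^ 2 - ‖β‖ ^ 2) ^ 2 / √(2 - ‖α + β‖)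

lemma core_bounds (v : ℂ) {r : ℝ} (h0 : 0 ≤ r) (h2 : r < 2) :
    ∫ y, (v * fourier 1 y).re ^ 2 / (2 - r * cs 1 y) ∂hm
        ≤ 4 * (‖v‖ ^ 2 + (v.re * r) ^ 2 / √(2 - r)) ∧
      ‖v‖ ^ 2 + (v.re * r) ^ 2 / √(2 - r)
        ≤ 300 * ∫ y, (v * fourier 1 y).re ^ 2 / (2 - r * cs 1 y) ∂hm := by
  obtain ⟨J1, J2⟩ := J_bounds h0 h2
  have cJ := cont_J h0 h2
  have cu : Continuous fun y : Tc => (v * fourier 1 y).re ^ 2 :=
    (Complex.continuous_re.comp (continuous_const.mul (fourier 1).continuous)).pow 2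
  have cK : Continuous fun y : Tc => (v * fourier 1 y).re ^ 2 / (2 - r * cs 1 y) :=
    cu.div (continuous_const.sub (continuous_const.mul (TP.cs 1).continuous))
      fun y => (den_pos h0 h2 y).ne'
  have hv : ‖v‖ ^ 2 = v.re ^ 2 + v.im ^ 2 := by
    rw [Complex.sq_norm, Complex.normSq_apply]; ring
  have hpt : ∀ y : Tc, ∃ c σ : ℝ, cs 1 y = c ∧ (v * fourier 1 y).re = v.re * c - v.im * σ ∧
      σ ^ 2 = 1 - c ^ 2 ∧ σ ^ 2 ≤ 2 * (2 - r * c) ∧ 2 - r * c ≤ 4 := by
    intro y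
    have h3 : ‖fourier 1 y‖ = 1 := by rw [fourier_apply, Circle.norm_coe]
    have h4 : (fourier 1 y).re ^ 2 + (fourier 1 y).im ^ 2 = 1 := by
      have := Complex.sq_norm (fourier 1 y)
      rw [h3, Complex.normSq_apply] at this
      linarith
    have h5 : cs 1 y = (fourier 1 y).re := rfl
    have h6 := abs_le.1 (abs_cs_le 1 y)
    rw [h5] at h6
    refine ⟨_, (fourier 1 y).im, h5, Complex.mul_re _ _, by linarith, ?_, by nlinarith [h6.1]⟩
    rcases le_total 0 (fourier 1 y).re with hc | hc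
    · nlinarith [h6.2, sq_nonneg (1 - (fourier 1 y).re)]
    · nlinarith [sq_nonneg (fourier 1 y).re]
  set K := ∫ y, (v * fourier 1 y).re ^ 2 / (2 - r * cs 1 y) ∂hm with hK
  set J := ∫ y, 1 / (2 - r * cs 1 y) ∂hm with hJ
  have up : K ≤ 2 * v.re ^ 2 * J + 4 * v.im ^ 2 := by
    have : K ≤ ∫ y, (2 * v.re ^ 2 * (1 / (2 - r * cs 1 y)) + 4 * v.im ^ 2) ∂hm := by
      refine integral_mono (integrable_of_continuous _ cK) (integrable_of_continuous _
        ((continuous_const.fun_mul cJ).fun_add continuous_const)) fun y => ?_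
      obtain ⟨c, σ, e1, e2, e3, e4, -⟩ := hpt y
      have hd := den_pos h0 h2 y
      simp only
      rw [e1] at hd
      rw [e1, e2, div_le_iff₀ hd, add_mul, mul_assoc (2 * v.re ^ 2), one_div_mul_cancel hd.ne']
      nlinarith [sq_nonneg (v.re * c + v.im * σ), mul_nonneg (sq_nonneg v.re) (sq_nonneg σ),
        mul_le_mul_of_nonneg_left e4 (sq_nonneg v.im)]
    rwa [integral_add (integrable_of_continuous _ (continuous_const.fun_mul cJ))
      (integrable_const _), integral_const_mul, integral_const, probReal_univ, one_smul] at this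
  have lo1 : ‖v‖ ^ 2 ≤ 8 * K := by
    have : ∫ y, (1 / 4) * (v * fourier 1 y).re ^ 2 ∂hm ≤ K := by
      refine integral_mono (integrable_of_continuous _ (continuous_const.fun_mul cu))
        (integrable_of_continuous _ cK) fun y => ?_
      obtain ⟨c, σ, e1, -, -, -, e5⟩ := hpt y
      have hd := den_pos h0 h2 y
      simp only
      rw [e1] at hd
      rw [e1, le_div_iff₀ hd]
      nlinarith [sq_nonneg (v * fourier 1 y).re]
    rw [integral_const_mul, integral_re_sq] at this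
    linarith
  have lo2 : v.re ^ 2 / 2 * J + -2 * ‖v‖ ^ 2 ≤ K := by
    have : ∫ y, (v.re ^ 2 / 2 * (1 / (2 - r * cs 1 y)) + -2 * ‖v‖ ^ 2) ∂hm ≤ K := by
      refine integral_mono (integrable_of_continuous _
        ((continuous_const.fun_mul cJ).fun_add continuous_const))
        (integrable_of_continuous _ cK) fun y => ?_
      obtain ⟨c, σ, e1, e2, e3, e4, -⟩ := hpt y
      have hd := den_pos h0 h2 y
      simp only
      rw [e1] at hd
      rw [e1, e2, le_div_iff₀ hd, add_mul, mul_assoc (v.re ^ 2 / 2), one_div_mul_cancel hd.ne', hv]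
      nlinarith [sq_nonneg (v.re * c - 2 * v.im * σ), mul_nonneg (sq_nonneg v.re) (sq_nonneg σ),
        mul_le_mul_of_nonneg_left e4 (sq_nonneg v.im),
        mul_le_mul_of_nonneg_left e4 (sq_nonneg v.re)]
    rwa [integral_add (integrable_of_continuous _ (continuous_const.fun_mul cJ))
      (integrable_const _), integral_const_mul, integral_const, probReal_univ, one_smul] at this
  have hA0 : 0 < √(2 - r) := Real.sqrt_pos.2 (by linarith)
  set i := 1 / √(2 - r) with hi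
  have hi0 : 0 < i := by positivity
  have ed : (v.re * r) ^ 2 / √(2 - r) = v.re ^ 2 * r ^ 2 * i := by
    rw [hi]; ring
  rw [ed]
  have hr2 := sq_nonneg v.re
  have hi2 := sq_nonneg v.im
  have q1 := mul_le_mul_of_nonneg_left J2 hr2
  have q2 := mul_le_mul_of_nonneg_left J1 hr2
  have q0 : 0 ≤ v.re ^ 2 * i := by positivity
  constructor
  · rcases le_total 1 r with hr | hr
    · have : v.re ^ 2 * i ≤ v.re ^ 2 * i * r ^ 2 := le_mul_of_one_le_right q0 (one_le_pow₀ hr)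
      nlinarith
    · have h1 : i ≤ 1 := by
        rw [hi, div_le_one hA0]
        exact Real.one_le_sqrt.2 (by linarith)
      have h3 := mul_le_mul_of_nonneg_left h1 hr2
      have h4 : 0 ≤ v.re ^ 2 * r ^ 2 * i := by positivity
      nlinarith
  · have h3 : v.re ^ 2 * i * r ^ 2 ≤ v.re ^ 2 * i * 4 :=
      mul_le_mul_of_nonneg_left (by nlinarith) q0
    nlinarith

lemma kak_ks {α β : ℂ} (hα : ‖α‖ < 1) (hβ : ‖β‖ < 1) :
    kak α β ≤ 4 * ks α β ∧ ks α β ≤ 300 * kak α β := by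
  set r := ‖α + β‖ with hr
  have h2 : r < 2 := by linarith [norm_add_le α β]
  let θ : ℝ := -Complex.arg (-(α + β))
  have hω : fourier 1 (θ : Tc) = Complex.exp ((θ : ℂ) * Complex.I) := by
    rw [fourier_coe_apply]
    congr 1
    have hp : (π : ℂ) ≠ 0 := by exact_mod_cast Real.pi_ne_zero
    push_cast
    field_simp
  have hs : (α + β) * fourier 1 (θ : Tc) = -(r : ℂ) := by
    have h1 := Complex.norm_mul_exp_arg_mul_I (-(α + β))
    rw [norm_neg] at h1
    have h3 : α + β = -((r : ℂ) * Complex.exp (Complex.arg (-(α + β)) * Complex.I)) := by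
      rw [hr, h1, neg_neg]
    rw [hω]
    nth_rewrite 1 [h3]
    rw [neg_mul, mul_assoc, ← Complex.exp_add]
    simp [θ]
  have hn : ‖fourier 1 (θ : Tc)‖ = 1 := by rw [fourier_apply, Circle.norm_coe]
  set ω := fourier 1 (θ : Tc) with hωd
  have hk : kak α β = ∫ y, ((α - β) * ω * fourier 1 y).re ^ 2 / (2 - r * cs 1 y) ∂hm := by
    unfold kak
    rw [← integral_shift _ (θ : Tc)]
    congr 1
    ext y
    have e1 : pf α (y + θ) - pf β (y + θ) = ((α - β) * ω * fourier 1 y).re := by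
      simp only [pf, fourier_add_right, ← hωd, sub_mul, Complex.sub_re, mul_assoc]
      ring
    have e2 : pf α (y + θ) + pf β (y + θ) = 2 - r * cs 1 y := by
      have e3 : ((α + β) * ω * fourier 1 y).re = -(r * cs 1 y) := by
        rw [hs, neg_mul, Complex.neg_re, Complex.re_ofReal_mul]
        rfl
      simp only [add_mul, Complex.add_re, mul_assoc] at e3
      simp only [pf, fourier_add_right, ← hωd]
      linarith
    rw [e1, e2]
  have hv : ‖(α - β) * ω‖ = ‖α - β‖ := by rw [norm_mul, hn, mul_one]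
  have hre : (((α - β) * ω).re * r) ^ 2 = (‖α‖ ^ 2 - ‖β‖ ^ 2) ^ 2 := by
    have h1 := congrArg Complex.re hs
    have h3 := congrArg Complex.im hs
    have h4 := Complex.sq_norm ω
    rw [hn, Complex.normSq_apply] at h4
    simp only [Complex.mul_re, Complex.mul_im, Complex.add_re, Complex.add_im, Complex.neg_re,
      Complex.neg_im, Complex.ofReal_re, Complex.ofReal_im, neg_zero] at h1 h3
    have h5 : ((α - β) * ω).re * r = -(‖α‖ ^ 2 - ‖β‖ ^ 2) := by
      rw [Complex.sq_norm, Complex.sq_norm, Complex.normSq_apply, Complex.normSq_apply]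
      simp only [Complex.mul_re, Complex.sub_re, Complex.sub_im]
      have h6 : r = -((α.re + β.re) * ω.re - (α.im + β.im) * ω.im) := by linarith
      rw [h6]
      linear_combination ((α.re - β.re) * ω.im + (α.im - β.im) * ω.re) * h3
        + (α.re * α.re + α.im * α.im - (β.re * β.re + β.im * β.im)) * h4
    rw [h5, neg_sq]
  have := core_bounds ((α - β) * ω) (norm_nonneg (α + β)) h2
  rw [← hr, ← hk, hv, hre] at this
  exact this

lemma Up.kak_le {D : ℕ} {α β : ℂ} {e : ℝ} (hα : ‖α‖ < 1) (hβ : ‖β‖ < 1)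
    (h : Up D (pf α) (pf β) e) : kak α β ≤ 2 * e := by
  obtain ⟨T, h1, h2, h3⟩ := h
  have hs : ∀ y, 0 < pf α y + pf β y := fun y => add_pos (pf_pos hα y) (pf_pos hβ y)
  have : kak α β ≤ ∫ y, 2 * T y ∂hm := by
    refine integral_mono (integrable_of_continuous _ ?_)
      (integrable_of_continuous _ (continuous_const.fun_mul h1.continuous)) fun y => ?_
    · exact (((TP_pf α).continuous.sub (TP_pf β).continuous).pow 2).div
        ((TP_pf α).continuous.add (TP_pf β).continuous) fun y => (hs y).ne'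
    · simp only
      rw [div_le_iff₀ (hs y)]
      linarith [h2 y]
  rw [integral_const_mul] at this
  linarith

lemma Low.le_kak {E : ℕ} {α β : ℂ} {e : ℝ} (hα : ‖α‖ < 1) (hβ : ‖β‖ < 1)
    (h : Low E (pf α) (pf β) e) : e ≤ kak α β := by
  obtain ⟨x, h1, h2⟩ := h
  have hs : ∀ y, 0 < pf α y + pf β y := fun y => add_pos (pf_pos hα y) (pf_pos hβ y)
  have c1 := h1.continuous.fun_mul ((TP_pf α).continuous.fun_sub (TP_pf β).continuous)
  have c2 := (h1.continuous.fun_pow 2).fun_mul ((TP_pf α).continuous.fun_add (TP_pf β).continuous)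
  rw [← integral_sub (integrable_of_continuous _ c1) (integrable_of_continuous _ c2)] at h2
  refine h2.trans (integral_mono (integrable_of_continuous _ (c1.fun_sub c2))
    (integrable_of_continuous _ ?_) fun y => ?_)
  · exact (((TP_pf α).continuous.sub (TP_pf β).continuous).pow 2).div
      ((TP_pf α).continuous.add (TP_pf β).continuous) fun y => (hs y).ne'
  · simp only
    rw [le_div_iff₀ (hs y)]
    nlinarith [sq_nonneg (x y * (pf α y + pf β y) - (pf α y - pf β y)),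
      sq_nonneg (x y * (pf α y + pf β y)), sq_nonneg (pf α y - pf β y)]

lemma ks_nonneg (α β : ℂ) : 0 ≤ ks α β := by
  unfold ks
  positivity

end Pool.Agent.MP_b30265_an.Th
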