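import Pool.Agent.MP_b30265_an.Th.PartB
import Pool.Agent.MP_b30265_an.Th.Defs

open MeasureTheory Filter Topology Real

noncomputable section

namespace Pool.Agent.MP_b30265_an.Th

lemma rf_coe_ThExist (a : ℕ → ℂ) (φ : ℕ → ℝ) (n L : ℕ) (x : ℝ) :
    rf a φ n ((L : ℤ) • (x : Tc)) =
      1 + (a n * Complex.exp (Complex.I * ((L : ℂ) * (x : ℂ) + (φ n : ℂ)))).re := by
  unfold rf pf
  rw [← AddCircle.coe_zsmul, ← AddCircle.coe_add, fourier_coe_apply]
  congr 4
  have hp : (π : ℂ) ≠ 0 := by exact_mod_cast Real.pi_ne_zero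
  rw [zsmul_eq_mul]
  push_cast
  field_simp

lemma TP_rf_ThExist (a : ℕ → ℂ) (φ : ℕ → ℝ) (n : ℕ) : TP 1 1 (rf a φ n) := TP_shift (TP_pf _) _

lemma int_rf_ThExist (a : ℕ → ℂ) (φ : ℕ → ℝ) (n : ℕ) : ∫ y, rf a φ n y ∂hm = 1 :=
  (integral_shift (pf (a n)) _).trans (integral_pf _)

lemma int_one {Λ : ℕ → ℕ} (h : Sep Λ fun _ => 1) (a : ℕ → ℂ) (φ : ℕ → ℝ) (N : ℕ) :
    ∫ x, ∏ k ∈ Finset.range N, rf a φ k ((Λ k : ℤ) • x) ∂hm = 1 := by
  rw [(fact h (TP_rf_ThExist a φ) N).2]
  exact Finset.prod_eq_one fun k _ => int_rf_ThExist a φ k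

lemma riesz_iff (lam : ℕ → ℕ) (a : ℕ → ℂ) (φ : ℕ → ℝ) (μ : Measure Tc) :
    IsRieszProduct lam a φ μ ↔ IsFiniteMeasure μ ∧ ∀ f : C(Tc, ℝ),
      Tendsto (fun N => ∫ x, f x * ∏ k ∈ Finset.range N, rf a φ k ((lam k : ℤ) • x) ∂hm) atTop
        (𝓝 (∫ x, f x ∂μ)) := by
  have e : ∀ (f : C(Tc, ℝ)) (N : ℕ),
      ∫ x, f x * ∏ k ∈ Finset.range N, rf a φ k ((lam k : ℤ) • x) ∂hm =
        (1 / (2 * π)) * ∫ x in (0 : ℝ)..(2 * π), f (x : Tc) * ∏ n ∈ Finset.range N,
          (1 + (a n * Complex.exp (Complex.I * ((lam n : ℂ) * (x : ℂ) + (φ n : ℂ)))).re) := by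
    intro f N
    rw [integral_hm]
    simp only [rf_coe_ThExist]
  simp only [e]
  rfl

lemma cauchy_ThExist {P : ℕ → Tc → ℝ} (hc : ∀ N, Continuous (P N)) (h0 : ∀ N x, 0 ≤ P N x)
    (h1 : ∀ N, ∫ x, P N x ∂hm = 1)
    (hs : ∀ K g, TP 1 K g → ∀ N, K ≤ N → ∫ x, g x * P N x ∂hm = ∫ x, g x * P K x ∂hm)
    (f : C(Tc, ℝ)) : CauchySeq (fun N => ∫ x, f x * P N x ∂hm) := by
  rw [Metric.cauchySeq_iff']
  intro ε hε
  obtain ⟨K, g, hg, hfg⟩ := exists_TP_near f (show 0 < ε / 3 by positivity)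
  have key : ∀ N, |∫ x, f x * P N x ∂hm - ∫ x, g x * P N x ∂hm| ≤ ε / 3 := by
    intro N
    have cP := hc N
    rw [← integral_sub (integrable_of_continuous _ (f.continuous.fun_mul cP))
      (integrable_of_continuous _ (hg.continuous.fun_mul cP))]
    refine (abs_integral_le_integral_abs).trans ?_
    calc ∫ x, |f x * P N x - g x * P N x| ∂hm ≤ ∫ x, ε / 3 * P N x ∂hm := by
          refine integral_mono (integrable_of_continuous _
            ((f.continuous.fun_mul cP).fun_sub (hg.continuous.fun_mul cP)).abs) ?_ ?_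
          · exact integrable_of_continuous _ (continuous_const.fun_mul cP)
          · intro x
            simp only
            rw [← sub_mul, abs_mul, abs_of_nonneg (h0 N x)]
            exact mul_le_mul_of_nonneg_right (hfg x) (h0 N x)
      _ = ε / 3 := by rw [integral_const_mul, h1, mul_one]
  refine ⟨K, fun N hN => ?_⟩
  have h2 := key N
  have h3 := key K
  rw [hs K g hg N hN] at h2
  rw [Real.dist_eq, abs_lt]
  rw [abs_le] at h2 h3
  constructor <;> linarith [h2.1, h2.2, h3.1, h3.2]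

lemma lim_ThExist {P : ℕ → Tc → ℝ} (hc : ∀ N, Continuous (P N)) (h0 : ∀ N x, 0 ≤ P N x)
    (h1 : ∀ N, ∫ x, P N x ∂hm = 1)
    (hs : ∀ f : C(Tc, ℝ), CauchySeq (fun N => ∫ x, f x * P N x ∂hm)) :
    ∃ μ : Measure Tc, IsProbabilityMeasure μ ∧ ∀ f : C(Tc, ℝ),
      Tendsto (fun N => ∫ x, f x * P N x ∂hm) atTop (𝓝 (∫ x, f x ∂μ)) := by
  have hmeas : ∀ N, Measurable (fun x => (P N x).toNNReal) := fun N =>
    (hc N).measurable.real_toNNReal
  have hint : ∀ N (f : Tc → ℝ), ∫ x, f x ∂(hm.withDensity (fun x => ((P N x).toNNReal : ENNReal)))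
      = ∫ x, f x * P N x ∂hm := by
    intro N f
    rw [integral_withDensity_eq_integral_smul (hmeas N)]
    congr 1
    ext x
    rw [NNReal.smul_def, Real.coe_toNNReal _ (h0 N x), smul_eq_mul, mul_comm]
  have hprob : ∀ N, IsProbabilityMeasure
      (hm.withDensity (fun x => ((P N x).toNNReal : ENNReal))) := by
    intro N
    constructor
    rw [withDensity_apply _ MeasurableSet.univ, Measure.restrict_univ]
    have := ofReal_integral_eq_lintegral_ofReal (μ := hm) (f := P N)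
      (integrable_of_continuous _ (hc N)) (Eventually.of_forall (h0 N))
    rw [h1] at this
    simpa [ENNReal.ofReal] using this.symm
  let ν : ℕ → ProbabilityMeasure Tc := fun N => ⟨_, hprob N⟩
  obtain ⟨μ, hμ⟩ : ∃ μ : ProbabilityMeasure Tc, MapClusterPt μ atTop ν := by
    obtain ⟨μ, -, h⟩ := isCompact_univ.exists_mapClusterPt (f := atTop) (u := ν) (by simp)
    exact ⟨μ, h⟩
  refine ⟨μ, inferInstance, fun f => ?_⟩
  obtain ⟨l, hl⟩ := cauchySeq_tendsto_of_complete (hs f)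
  have hc' : Continuous (fun ρ : ProbabilityMeasure Tc => ∫ x, f x ∂(ρ : Measure Tc)) :=
    ProbabilityMeasure.continuous_integral_continuousMap f
  have h2 := hμ.continuousAt_comp hc'.continuousAt
  have h3 : ((fun ρ : ProbabilityMeasure Tc => ∫ x, f x ∂(ρ : Measure Tc)) ∘ ν)
      = fun N => ∫ x, f x * P N x ∂hm := by
    ext N
    exact hint N f
  rw [h3] at h2
  have h4 : ∫ x, f x ∂(μ : Measure Tc) = l := by
    have h5 : ClusterPt (∫ x, f x ∂(μ : Measure Tc)) (𝓝 l) := ClusterPt.mono h2 hl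
    exact eq_of_nhds_neBot h5
  rw [h4]
  exact hl

lemma exist_of_room {Λ : ℕ → ℕ} (h : ∀ N, N + ∑ j ∈ Finset.range N, 1 * Λ j < Λ N) {a : ℕ → ℂ}
    (φ : ℕ → ℝ) (ha : ∀ n, ‖a n‖ < 1) : ∃ μ, Lim Λ (rf a φ) μ := by
  have hs : Sep Λ fun _ => 1 :=
    ⟨fun k => by have := h k; omega, fun k => (Nat.le_add_left _ k).trans_lt (h k)⟩
  have hT := fun N => (fact hs (TP_rf_ThExist a φ) N).1
  have h0 : ∀ N x, 0 ≤ ∏ k ∈ Finset.range N, rf a φ k ((Λ k : ℤ) • x) := fun N x =>
    Finset.prod_nonneg fun k _ => (pf_pos (ha k) _).le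
  refine lim_ThExist (fun N => (hT N).continuous) h0 (int_one hs a φ)
    (cauchy_ThExist (fun N => (hT N).continuous) h0 (int_one hs a φ) fun K g hg N hN => ?_)
  induction N, hN using Nat.le_induction with
  | base => rfl
  | succ N hN ih =>
    have h1 := (hg.mul (hT N)).indep ((TP_rf_ThExist a φ N).scale (Λ N))
      (by have := h N; omega)
    rw [integral_scale (hs.1 N).ne' (TP_rf_ThExist a φ N).continuous, int_rf_ThExist,
      mul_one] at h1
    rw [← ih, ← h1]
    simp only [Finset.prod_range_succ, mul_assoc]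

/-- removing finitely many factors gives an equivalent measure -/
lemma tail_lim {lam : ℕ → ℕ} {a : ℕ → ℂ} {φ : ℕ → ℝ} {μ : Measure Tc} (ha : ∀ n, ‖a n‖ < 1)
    (h : IsRieszProduct lam a φ μ) (K : ℕ) (hs : Sep (fun n => lam (K + n)) fun _ => 1) :
    ∃ μ' : Measure Tc, Lim (fun n => lam (K + n))
      (rf (fun n => a (K + n)) fun n => φ (K + n)) μ' ∧ μ ≪ μ' ∧ μ' ≪ μ := by
  obtain ⟨h1, h2⟩ := (riesz_iff _ _ _ _).1 h
  let H : Tc → ℝ := fun x => ∏ k ∈ Finset.range K, rf a φ k ((lam k : ℤ) • x)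
  have hc : Continuous H := continuous_finsetProd _ fun k _ =>
    (TP_rf_ThExist a φ k).continuous.comp (continuous_const_smul _)
  have h0 : ∀ x, 0 < H x := fun x => Finset.prod_pos fun k _ => pf_pos (ha k) _
  have hi : Continuous fun x => (H x)⁻¹ := hc.inv₀ fun x => (h0 x).ne'
  have hmeas : Measurable fun x => ((H x)⁻¹).toNNReal := hi.measurable.real_toNNReal
  let μ' : Measure Tc := μ.withDensity fun x => (((H x)⁻¹).toNNReal : ENNReal)
  have hint : ∀ f : Tc → ℝ, ∫ x, f x ∂μ' = ∫ x, f x * (H x)⁻¹ ∂μ := by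
    intro f
    rw [integral_withDensity_eq_integral_smul hmeas]
    congr 1
    ext x
    rw [NNReal.smul_def, Real.coe_toNNReal _ (inv_pos.2 (h0 x)).le, smul_eq_mul, mul_comm]
  have hfin : IsFiniteMeasure μ' :=
    isFiniteMeasure_withDensity_ofReal (integrable_of_continuous μ hi).2
  have hlim : ∀ f : C(Tc, ℝ), Tendsto (fun N => ∫ x, f x * ∏ k ∈ Finset.range N,
      rf (fun n => a (K + n)) (fun n => φ (K + n)) k ((lam (K + k) : ℤ) • x) ∂hm) atTop
      (𝓝 (∫ x, f x ∂μ')) := by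
    intro f
    have h3 := (h2 ⟨fun x => f x * (H x)⁻¹, f.continuous.mul hi⟩).comp
      (tendsto_add_atTop_nat K)
    rw [hint]
    refine h3.congr fun N => ?_
    simp only [Function.comp, ContinuousMap.coe_mk]
    congr 1
    ext x
    rw [add_comm N K, Finset.prod_range_add, mul_assoc, inv_mul_cancel_left₀ (h0 x).ne']
    rfl
  refine ⟨μ', ⟨?_, hlim⟩, ?_, withDensity_absolutelyContinuous _ _⟩
  · have h4 := hlim 1
    simp only [ContinuousMap.one_apply, one_mul, int_one hs, integral_const, smul_eq_mul,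
      mul_one] at h4
    exact isProbabilityMeasure_iff_real.2 (tendsto_nhds_unique tendsto_const_nhds h4).symm
  · refine withDensity_absolutelyContinuous' hmeas.coe_nnreal_ennreal.aemeasurable
      (Eventually.of_forall fun x => ?_)
    simp [h0 x]

/-- inserting trivial factors does not change the measure -/
lemma riesz_extend {lam σ : ℕ → ℕ} (hσ : StrictMono σ) {a : ℕ → ℂ} {φ φ' : ℕ → ℝ}
    (hφ : ∀ k, φ (σ k) = φ' k) {μ : Measure Tc} (h : IsRieszProduct (fun k => lam (σ k)) a φ' μ) :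
    IsRieszProduct lam (Function.extend σ a 0) φ μ := by
  rw [riesz_iff] at h ⊢
  refine ⟨h.1, fun f => ?_⟩
  have hex : ∀ N, ∃ k, N ≤ σ k := fun N => ⟨N, hσ.le_apply⟩
  have ht : Tendsto (fun N => Nat.find (hex N)) atTop atTop := by
    refine tendsto_atTop.2 fun b => ?_
    filter_upwards [eventually_gt_atTop (σ b)] with N hN
    have := Nat.find_spec (hex N)
    exact (hσ.lt_iff_lt.1 (hN.trans_le this)).le
  refine ((h.2 f).comp ht).congr fun N => ?_
  simp only [Function.comp]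
  congr 1
  ext x
  congr 1
  have e : ∏ k ∈ Finset.range (Nat.find (hex N)), rf a φ' k ((lam (σ k) : ℤ) • x)
      = ∏ j ∈ (Finset.range (Nat.find (hex N))).image σ,
        rf (Function.extend σ a 0) φ j ((lam j : ℤ) • x) := by
    rw [Finset.prod_image fun i _ j _ hij => hσ.injective hij]
    refine Finset.prod_congr rfl fun k _ => ?_
    simp only [rf, hσ.injective.extend_apply, hφ]
  rw [e]
  refine Finset.prod_subset (fun j hj => ?_) fun j hj hj' => ?_
  · obtain ⟨k, hk, rfl⟩ := Finset.mem_image.1 hj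
    exact Finset.mem_range.2 (not_le.1 (Nat.find_min (hex N) (Finset.mem_range.1 hk)))
  · have hn : ¬ ∃ k, σ k = j := by
      rintro ⟨k, rfl⟩
      refine hj' (Finset.mem_image_of_mem σ (Finset.mem_range.2 ?_))
      have := Nat.find_spec (hex N)
      exact hσ.lt_iff_lt.1 ((Finset.mem_range.1 hj).trans_le this)
    simp [rf, pf, Function.extend_apply' _ _ _ hn]

lemma norm_extend {σ : ℕ → ℕ} (hσ : StrictMono σ) {a : ℕ → ℂ} (ha : ∀ n, ‖a n‖ < 1) (j : ℕ) :
    ‖Function.extend σ a 0 j‖ < 1 := by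
  by_cases h : ∃ k, σ k = j
  · obtain ⟨k, rfl⟩ := h
    rw [hσ.injective.extend_apply]
    exact ha k
  · rw [Function.extend_apply' _ _ _ h]
    simp

lemma inv_sub {lam σ : ℕ → ℕ} (hσ : StrictMono σ) (h : PhaseInvariant lam) :
    PhaseInvariant fun k => lam (σ k) := by
  intro a b φ μa μb νa νb ha hb h1 h2 h3 h4
  have hφ : ∀ k, Function.extend σ φ 0 (σ k) = φ k := fun k => hσ.injective.extend_apply _ _ k
  exact h _ _ (Function.extend σ φ 0) μa μb νa νb (norm_extend hσ ha) (norm_extend hσ hb)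
    (riesz_extend hσ (fun _ => rfl) h1) (riesz_extend hσ (fun _ => rfl) h2)
    (riesz_extend hσ hφ h3) (riesz_extend hσ hφ h4)

lemma not_ac_of_sing {μ ν : Measure Tc} [IsProbabilityMeasure μ] (hs : μ ⟂ₘ ν) : ¬ μ ≪ ν :=
  fun hac => IsProbabilityMeasure.ne_zero μ
    (Measure.eq_zero_of_absolutelyContinuous_of_mutuallySingular hac hs)

lemma inv_cube_le {l L : ℕ} (hl : 0 < l) (hd : 6 ≤ L / (8 * l)) :
    96 / ((L / (8 * l) : ℕ) : ℝ) ^ 3 ≤ 96 * 16 ^ 3 * ((l : ℝ) / L) ^ 3 := by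
  set d := L / (8 * l) with hdd
  have h1 : L < (d + 1) * (8 * l) := by
    rw [hdd, mul_comm]
    exact Nat.lt_mul_div_succ L (by omega)
  have h2 : L ≤ 16 * (d * l) := by nlinarith
  have h0 : 0 < L := by
    rcases Nat.eq_zero_or_pos L with h | h
    · subst h; simp at hdd; omega
    · exact h
  have hd0 : (0 : ℝ) < d := by exact_mod_cast (by omega : 0 < d)
  have hL : (0 : ℝ) < L := by exact_mod_cast h0
  have h3 : (L : ℝ) ≤ 16 * (d * l) := by exact_mod_cast h2
  have h4 : 1 / (d : ℝ) ≤ 16 * ((l : ℝ) / L) := by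
    rw [mul_div_assoc', div_le_div_iff₀ hd0 hL]
    linarith
  have h5 := pow_le_pow_left₀ (by positivity) h4 3
  have e1 : 96 / (d : ℝ) ^ 3 = 96 * (1 / (d : ℝ)) ^ 3 := by field_simp
  rw [e1, mul_assoc, ← mul_pow]
  linarith

lemma eventually_ratio {lam : ℕ → ℕ} (h : ∀ n, 0 < lam n)
    (hs : Summable fun n => ((lam n : ℝ) / lam (n + 1)) ^ 3) :
    ∃ K, ∀ n, K ≤ n → 48 * lam n ≤ lam (n + 1) := by
  have h1 := hs.tendsto_atTop_zero.eventually
    (gt_mem_nhds (show (0 : ℝ) < (1 / 48) ^ 3 by norm_num))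
  obtain ⟨K, hK⟩ := eventually_atTop.1 h1
  refine ⟨K, fun n hn => ?_⟩
  have h2 := lt_of_pow_lt_pow_left₀ 3 (by norm_num) (hK n hn)
  have h3 : (0 : ℝ) < lam (n + 1) := by exact_mod_cast h (n + 1)
  rw [div_lt_div_iff₀ h3 (by norm_num)] at h2
  have h4 : lam n * 48 < 1 * lam (n + 1) := by exact_mod_cast h2
  omega

/-- the dichotomy is decided by the explicit series -/
theorem dich {lam : ℕ → ℕ} (h0 : 0 < lam 0) (h48 : ∀ n, 48 * lam n ≤ lam (n + 1))
    (hs : Summable fun n => ((lam n : ℝ) / lam (n + 1)) ^ 3) {a b : ℕ → ℂ}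
    (ha : ∀ n, ‖a n‖ < 1) (hb : ∀ n, ‖b n‖ < 1) {φ : ℕ → ℝ} {μ ν : Measure Tc}
    (hμ : Lim lam (rf a φ) μ) (hν : Lim lam (rf b φ) ν) :
    ((Summable fun n => ks (a n) (b n)) → μ ≪ ν) ∧
      (¬ (Summable fun n => ks (a n) (b n)) → μ ⟂ₘ ν) := by
  have h : Had lam := ⟨h0, fun n => by have := h48 n; omega⟩
  let D : ℕ → ℕ := fun n => lam (n + 1) / (2 * lam n)
  let d : ℕ → ℕ := fun n => lam (n + 1) / (8 * lam n)
  have hsep : Sep lam D := h.sep fun n => by
    have := Nat.div_mul_le_self (lam (n + 1)) (2 * lam n)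
    simp only [D]
    nlinarith
  have hDd : ∀ n, 4 * d n ≤ D n := fun n => by
    have h1 := h.pos n
    have := Nat.div_mul_le_self (lam (n + 1)) (8 * lam n)
    refine (Nat.le_div_iff_mul_le (by omega)).2 ?_
    simp only [d]
    nlinarith
  have hK : ∀ n, 6 ≤ d n := fun n => by
    have h5 := h.pos n
    have h6 := h48 n
    exact (Nat.le_div_iff_mul_le (by omega)).2 (by omega)
  have hD1 : ∀ n, 1 ≤ D n := fun n => by have := hDd n; have := hK n; omega
  choose s s0 hU hL using fun n => sBlockB sFej sCheb (a n) (b n) (d n) (ha n) (hb n) (hK n)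
  have hU' : ∀ n, Up (D n) (pf (a n)) (pf (b n))
      (s n + 96 * 16 ^ 3 * ((lam n : ℝ) / lam (n + 1)) ^ 3) := fun n => by
    have h1 := hK n
    have h2 := hDd n
    refine (hU n).mono (by omega) ?_
    have := inv_cube_le (h.pos n) h1
    simp only [d]
    linarith
  constructor
  · intro hk
    have hsum : Summable s := by
      refine Summable.of_nonneg_of_le s0 (fun n => ?_) (hk.mul_left 128)
      linarith [(hL n).le_kak (ha n) (hb n), (kak_ks (ha n) (hb n)).1]
    exact sAc lam D _ _ μ ν _ 0 hsep ((blk_rf ha φ).mono hD1) ((blk_rf hb φ).mono hD1) hμ hν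
      (hsum.add (hs.mul_left _)) fun k _ => (hU' k).shift (φ k : Tc)
  · intro hk
    refine sSing lam D (fun n => d n + 1) (fun _ => 1) _ _ μ ν (fun n => s n / 32) 0 hsep
      (blk_rf ha φ) (blk_rf hb φ) hμ hν hD1 (fun k => by have := s0 k; positivity)
      (fun h => hk ?_) fun k _ => ⟨?_, (hL k).shift (φ k : Tc)⟩
    · refine Summable.of_nonneg_of_le (fun n => ks_nonneg _ _) (fun n => ?_)
        (((h.mul_left 32).add (hs.mul_left (96 * 16 ^ 3))).mul_left 600)
      linarith [(hU' n).kak_le (ha n) (hb n), (kak_ks (ha n) (hb n)).2]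
    · have h1 := hK k
      have h2 := hDd k
      omega

theorem crit_of_summable {lam : ℕ → ℕ} (h : ∀ n, 0 < lam n)
    (hs : Summable fun n => ((lam n : ℝ) / lam (n + 1)) ^ 3) : ExplicitCriterion lam := by
  intro a b φ μ ν ha hb hμ hν
  obtain ⟨K, hK⟩ := eventually_ratio h hs
  have h48 : ∀ n, 48 * lam (K + n) ≤ lam (K + (n + 1)) := fun n => hK (K + n) (by omega)
  have hH : Had fun n => lam (K + n) := ⟨h _, fun n => by have := h48 n; beta_reduce; omega⟩
  have hsep : Sep (fun n => lam (K + n)) fun _ => 1 :=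
    hH.sep fun n => by have := h48 n; omega
  obtain ⟨μ', m1, m2, m3⟩ := tail_lim ha hμ K hsep
  obtain ⟨ν', n1, n2, n3⟩ := tail_lim hb hν K hsep
  have hs' : Summable fun n => ((lam (K + n) : ℝ) / lam (K + (n + 1))) ^ 3 := by
    refine ((summable_nat_add_iff K).2 hs).congr fun n => ?_
    rw [add_comm n K, add_assoc]
  obtain ⟨d1, d2⟩ := dich (lam := fun n => lam (K + n)) (h _) h48 hs' (fun n => ha _)
    (fun n => hb _) m1 n1
  have e : (Summable fun n => ks (a (K + n)) (b (K + n))) ↔ Summable fun n => ks (a n) (b n) := by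
    rw [← summable_nat_add_iff (f := fun n => ks (a n) (b n)) K]
    simp only [add_comm K]
  change μ ≪ ν ↔ Summable fun n => ks (a n) (b n)
  rw [← e]
  have := m1.1
  refine ⟨fun hac => by_contra fun hk => ?_, fun hk => (m2.trans (d1 hk)).trans n3⟩
  exact not_ac_of_sing (d2 hk) ((m3.trans hac).trans n2)

theorem inv_of_crit {lam : ℕ → ℕ} (h : ExplicitCriterion lam) : PhaseInvariant lam :=
  fun a b φ μa μb νa νb ha hb h1 h2 h3 h4 =>
    (h a b 0 μa μb ha hb h1 h2).trans (h a b φ νa νb ha hb h3 h4).symm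

/-- the counterexample on a sequence made of well separated pairs -/
theorem not_inv_pairs {Λ ρ M : ℕ → ℕ} (h2 : 2 ≤ Λ 0) (hρ : ∀ k, 2 ≤ ρ k) (hM : ∀ k, 8 ≤ M k)
    (hd : ∀ k, Λ (2 * k + 1) = ρ k * Λ (2 * k))
    (hg : ∀ k, (2 * M k + 2) * Λ (2 * k + 1) ≤ Λ (2 * (k + 1)))
    (h4 : Summable fun k => 1 / (ρ k : ℝ) ^ 3 / (M k : ℝ) ^ 4)
    (h3 : ¬ Summable fun k => 1 / (ρ k : ℝ) ^ 3 / (M k : ℝ) ^ 3) : ¬ PhaseInvariant Λ := by
  have hI : ∀ k, 2 * k + 1 + ∑ j ∈ Finset.range (2 * k), 1 * Λ j < Λ (2 * k) := fun k => by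
    induction k with
    | zero => simpa using Nat.lt_of_succ_le h2
    | succ k ih =>
      have e1 := hg k
      have e2 := Nat.mul_le_mul_right (Λ (2 * k + 1)) (show 18 ≤ 2 * M k + 2 by have := hM k; omega)
      have e3 := Nat.mul_le_mul_right (Λ (2 * k)) (hρ k)
      rw [← hd k] at e3
      rw [show 2 * (k + 1) = 2 * k + 1 + 1 by ring, Finset.sum_range_succ,
        Finset.sum_range_succ] at *
      omega
  have room : ∀ N, N + ∑ j ∈ Finset.range N, 1 * Λ j < Λ N := fun N => by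
    obtain ⟨k, rfl | rfl⟩ := Nat.even_or_odd' N
    · have := hI k; omega
    · have e1 := hI k
      have e3 := Nat.mul_le_mul_right (Λ (2 * k)) (hρ k)
      rw [← hd k] at e3
      rw [Finset.sum_range_succ]
      omega
  have hpos : ∀ N, 0 < Λ N := fun N => by have := room N; omega
  let δ : ℕ → ℝ := fun k => 1 / ((M k : ℝ) * ρ k) ^ 2
  have hδ : ∀ k, 0 < δ k ∧ δ k < 1 := fun k => by
    have h1 : (8 : ℝ) ≤ M k := by exact_mod_cast hM k
    have h2 : (2 : ℝ) ≤ ρ k := by exact_mod_cast hρ k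
    have h5 : (8 : ℝ) ≤ (M k : ℝ) * ρ k := by nlinarith
    refine ⟨by positivity, (div_lt_one (by positivity)).2 (by nlinarith)⟩
  have hα : ∀ k, |-(1 - δ k / 2)| < 1 := fun k => by
    have := hδ k
    rw [abs_lt]; constructor <;> linarith [this.1, this.2]
  have hγ : ∀ k, |-(1 - δ k)| < 1 := fun k => by
    have := hδ k
    rw [abs_lt]; constructor <;> linarith [this.1, this.2]
  have hγ' : ∀ k, |1 - δ k| < 1 := fun k => by simpa only [abs_neg] using hγ k
  let c : (ℕ → ℝ) → ℕ → ℂ := fun α i =>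
    ((if i % 2 = 0 then α (i / 2) else -(1 - δ (i / 2)) : ℝ) : ℂ)
  let φ : ℕ → ℝ := fun i => if i % 2 = 0 then 0 else π
  have z : ∀ y : Tc, y + ((0 : ℝ) : Tc) = y := fun y => by simp
  have i1 : ∀ k, 2 * k % 2 = 0 := fun k => by omega
  have i2 : ∀ k, ¬ (2 * k + 1) % 2 = 0 := fun k => by omega
  have i3 : ∀ k, 2 * k / 2 = k := fun k => by omega
  have i4 : ∀ k, (2 * k + 1) / 2 = k := fun k => by omega
  have hc : ∀ α : ℕ → ℝ, (∀ k, |α k| < 1) → (∀ j, ‖c α j‖ < 1) ∧
      (∀ μ, Lim Λ (rf (c α) 0) μ →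
        Lim (fun k => Λ (2 * k)) (fun k => bA (α k) (-(1 - δ k)) (ρ k)) μ) ∧
      (∀ μ, Lim Λ (rf (c α) φ) μ →
        Lim (fun k => Λ (2 * k)) (fun k => bA (α k) (1 - δ k) (ρ k)) μ) := by
    intro α hα
    have h0 : ∀ (ψ : ℕ → ℝ) (j : ℕ) (y : Tc), (¬ ∃ k, 2 * k = j) → (¬ ∃ k, 2 * k + 1 = j) →
        rf (c α) ψ j y = 1 := fun ψ j y e1 e2 => by
      obtain ⟨k, rfl | rfl⟩ := Nat.even_or_odd' j
      · exact absurd ⟨k, rfl⟩ e1
      · exact absurd ⟨k, rfl⟩ e2
    refine ⟨fun j => ?_, lim_ThEmb (n := fun k => 2 * k) (fun k => by omega) hd (h0 _)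
      (fun k y => ?_) fun k y => ?_, lim_ThEmb (n := fun k => 2 * k) (fun k => by omega) hd (h0 _)
      (fun k y => ?_) fun k y => ?_⟩
    · simp only [c]
      rw [Complex.norm_real, Real.norm_eq_abs]
      split_ifs
      · exact hα _
      · exact hγ _
    · simp only [rf, c, if_pos (i1 k), i3, Pi.zero_apply, z, pf_real_ThEmb]
    · simp only [rf, c, if_neg (i2 k), i4, Pi.zero_apply, z, pf_real_ThEmb]
    · simp only [rf, c, φ, if_pos (i1 k), i3, z, pf_real_ThEmb]
    · simp only [rf, c, φ, if_neg (i2 k), i4, pf_pi_ThEmb, neg_neg]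
  obtain ⟨a1, a2, a3⟩ := hc (fun k => -(1 - δ k / 2)) hα
  obtain ⟨b1, b2, b3⟩ := hc (fun k => -(1 - δ k)) hγ
  obtain ⟨μa, hμa⟩ := exist_of_room room 0 a1
  obtain ⟨μb, hμb⟩ := exist_of_room room 0 b1
  obtain ⟨νa, hνa⟩ := exist_of_room room φ a1
  obtain ⟨νb, hνb⟩ := exist_of_room room φ b1
  let D : ℕ → ℕ := fun k => 2 * (M k * ρ k) + (1 + ρ k)
  have hsep : Sep (fun k => Λ (2 * k)) D := by
    refine ⟨fun k => hpos _, fun k => ?_⟩
    induction k with
    | zero => simpa using hpos _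
    | succ k ih =>
      rw [Finset.sum_range_succ]
      have h1 := hg k
      rw [hd k] at h1
      have h6 := Nat.mul_le_mul_left (Λ (2 * k)) (hρ k)
      simp only [D] at ih ⊢
      nlinarith
  have hFD : ∀ k, 1 + ρ k ≤ D k := fun k => Nat.le_add_left _ _
  have hB := fun k => sBlockA sFej (ρ k) (M k) (δ k) (hρ _) (hM k) rfl
  have hac : μa ≪ μb := by
    refine sAc _ D _ _ μa μb _ 0 hsep ((blk_bA hα hγ hρ).mono hFD) ((blk_bA hγ hγ hρ).mono hFD)
      (a2 _ hμa) (b2 _ hμb) h4 fun k _ => ?_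
    refine (hB k).1.mono (by have := hFD k; omega) ?_
    rw [div_div]
  have hsing : νa ⟂ₘ νb := by
    refine sSing _ D (fun k => M k * ρ k) (fun k => 1 + ρ k) _ _ νa νb
      (fun k => 1 / (768 * ((ρ k : ℝ) ^ 3 * (M k : ℝ) ^ 3))) 0 hsep (blk_bA hα hγ' hρ)
      (blk_bA hγ hγ' hρ) (a3 _ hνa) (b3 _ hνb) hFD (fun k => by positivity) (fun h => h3 ?_)
      fun k _ => ⟨le_rfl, (hB k).2⟩
    refine (h.mul_left 768).congr fun k => ?_
    rw [div_div, mul_one_div, div_mul_eq_div_div, div_self (by norm_num)]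
  have hR : ∀ a ψ μ, Lim Λ (rf a ψ) μ → IsRieszProduct Λ a ψ μ := fun a ψ μ h =>
    (riesz_iff _ _ _ _).2 ⟨by have := h.1; infer_instance, h.2⟩
  intro hI
  have := hνa.1
  exact not_ac_of_sing hsing ((hI _ _ φ μa μb νa νb a1 b1 (hR _ _ _ hμa)
    (hR _ _ _ hμb) (hR _ _ _ hνa) (hR _ _ _ hνb)).1 hac)

lemma lin_le_pow (M : ℕ) (hM : 3 ≤ M) : 2 * M + 2 ≤ 2 ^ M := by
  induction M, hM using Nat.le_induction with
  | base => norm_num
  | succ M _ ih => rw [pow_succ]; omega

theorem summable_of_inv {lam m n : ℕ → ℕ} (h0 : 0 < lam 0) (hl : StrictMono lam)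
    (hmn : ∀ k, m k < n k) (hnm : ∀ k, n k ≤ m (k + 1)) (hd : ∀ k, lam (m k) ∣ lam (n k))
    (hI : PhaseInvariant lam) : Summable fun k => ((lam (m k) : ℝ) / lam (n k)) ^ 3 := by
  by_contra hs
  have hpos : ∀ i, 0 < lam i := fun i => h0.trans_le (hl.monotone (Nat.zero_le i))
  choose r hr using hd
  have hr2 : ∀ k, 2 ≤ r k := fun k => by
    have h1 := hl (hmn k)
    rw [hr k] at h1
    by_contra h
    have : lam (m k) * r k ≤ lam (m k) * 1 := Nat.mul_le_mul_left _ (by omega)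
    omega
  have hr1 : ∀ k, (1 : ℝ) ≤ r k := fun k => by
    have := hr2 k
    exact_mod_cast (by omega : 1 ≤ r k)
  have hw : ∀ k, ((lam (m k) : ℝ) / lam (n k)) ^ 3 = 1 / (r k : ℝ) ^ 3 := fun k => by
    have h2 : (lam (m k) : ℝ) ≠ 0 := by exact_mod_cast (hpos _).ne'
    have h3 : (r k : ℝ) ≠ 0 := by have := hr1 k; positivity
    rw [hr k]
    push_cast
    field_simp
  simp only [hw] at hs
  rw [← summable_nat_add_iff 1] at hs
  obtain ⟨j, M, hM, hj, h4, h3⟩ := sSel (fun k => 1 / (r (k + 1) : ℝ) ^ 3)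
    (fun k => by positivity) (fun k =>
      (div_le_one (by have := hr1 (k + 1); positivity)).2 (one_le_pow₀ (hr1 _))) hs
  have hm : StrictMono m := strictMono_nat_of_lt_succ fun k => (hmn k).trans_le (hnm k)
  have grow : ∀ k t, 2 ^ t * lam (n k) ≤ lam (m (k + 1 + t)) := fun k t => by
    induction t with
    | zero => simpa using hl.monotone (hnm k)
    | succ t ih =>
      have h1 := hl.monotone (hnm (k + 1 + t))
      have h2 := Nat.mul_le_mul_left (lam (m (k + 1 + t))) (hr2 (k + 1 + t))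
      rw [← hr] at h2
      rw [pow_succ, ← add_assoc]
      nlinarith
  let σ : ℕ → ℕ := fun i => if i % 2 = 0 then m (j (i / 2) + 1) else n (j (i / 2) + 1)
  have s1 : ∀ k, σ (2 * k) = m (j k + 1) := fun k => by
    simp only [σ, if_pos (show 2 * k % 2 = 0 by omega), show 2 * k / 2 = k by omega]
  have s2 : ∀ k, σ (2 * k + 1) = n (j k + 1) := fun k => by
    simp only [σ, if_neg (show ¬ (2 * k + 1) % 2 = 0 by omega), show (2 * k + 1) / 2 = k by omega]
  have hσ : StrictMono σ := strictMono_nat_of_lt_succ fun i => by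
    obtain ⟨k, rfl | rfl⟩ := Nat.even_or_odd' i
    · rw [s1, s2]; exact hmn _
    · rw [show 2 * k + 1 + 1 = 2 * (k + 1) by ring, s1, s2]
      have h1 := hj k
      have h2 := hM k
      exact (hnm _).trans_lt (hm (by omega))
  refine not_inv_pairs (Λ := fun i => lam (σ i)) (ρ := fun k => r (j k + 1)) (M := M) ?_
    (fun k => hr2 _) hM (fun k => ?_) (fun k => ?_) h4 h3 (inv_sub hσ hI)
  · have h1 := s1 0
    rw [mul_zero] at h1
    have h2 : 1 ≤ m (j 0 + 1) := (Nat.le_add_left 1 (j 0)).trans hm.le_apply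
    have h5 := hl.monotone h2
    have h6 := hl (show 0 < 1 by norm_num)
    simp only [h1]
    omega
  · simp only [s1, s2]
    rw [hr, mul_comm]
  · simp only [s1, s2]
    have h1 := grow (j k + 1) (M k)
    have h2 := Nat.mul_le_mul_right (lam (n (j k + 1))) (lin_le_pow (M k) (by have := hM k; omega))
    have h5 := hj k
    exact (h2.trans h1).trans (hl.monotone (hm.monotone (by omega)))

theorem summable_dvd {lam : ℕ → ℕ} (h0 : 0 < lam 0) (hl : StrictMono lam)
    (hI : PhaseInvariant lam) :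
    Summable fun n => if lam n ∣ lam (n + 1) then ((lam n : ℝ) / lam (n + 1)) ^ 3 else 0 := by
  rcases Set.finite_or_infinite {n | lam n ∣ lam (n + 1)} with hS | hS
  · refine summable_of_ne_finset_zero (s := hS.toFinset) fun n hn => if_neg fun h => hn ?_
    exact hS.mem_toFinset.2 h
  · have hm := Nat.nth_strictMono hS
    have h1 := summable_of_inv (m := Nat.nth fun n => lam n ∣ lam (n + 1))
      (n := fun k => Nat.nth (fun n => lam n ∣ lam (n + 1)) k + 1) h0 hl
      (fun k => Nat.lt_succ_self _) (fun k => hm (Nat.lt_succ_self k))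
      (fun k => Nat.nth_mem_of_infinite hS k) hI
    refine (hm.injective.summable_iff fun n hn => if_neg fun h => hn ?_).1 (h1.congr fun k => ?_)
    · rw [Nat.range_nth_of_infinite hS]
      exact h
    · exact (if_pos (Nat.nth_mem_of_infinite hS k)).symm

theorem threshold (lam : ℕ → ℕ) (h0 : 0 < lam 0) (hl : StrictMono lam)
    (hd : Summable fun n => if lam n ∣ lam (n + 1) then 0 else ((lam n : ℝ) / lam (n + 1)) ^ 3) :
    List.TFAE [PhaseInvariant lam, Summable fun n => ((lam n : ℝ) / lam (n + 1)) ^ 3,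
      ExplicitCriterion lam] := by
  tfae_have 1 → 2 := fun h => ((summable_dvd h0 hl h).add hd).congr fun n => by
    split_ifs <;> simp
  tfae_have 2 → 3 := crit_of_summable fun i => h0.trans_le (hl.monotone (Nat.zero_le i))
  tfae_have 3 → 1 := inv_of_crit
  tfae_finish

end Pool.Agent.MP_b30265_an.Th
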